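import Pool.Agent.Helper712_LP.Stmts

/-!
# MP_f368f5_pr: comparison of independent points with a Poisson number of points

`compare : S_compare`.
-/

set_option autoImplicit false

namespace Pool.Agent.Helper114_LP.Cmp

open Finset
open Pool.Agent.Helper712_LP
open scoped Nat

variable {Y : Type} [Fintype Y] [DecidableEq Y]

/-- Operators on functions of finite sets. -/
abbrev Op (Y : Type) [Fintype Y] : Type := (Finset Y → ℝ) →L[ℝ] (Finset Y → ℝ)

noncomputable instance instQ : NormedAlgebra ℚ (Op Y) := NormedAlgebra.restrictScalars ℚ ℝ (Op Y)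

/-- Insertion of the point `c`. -/
noncomputable def A (c : Y) : Op Y :=
  ContinuousLinearMap.pi (fun O => ContinuousLinearMap.proj (insert c O))

lemma A_apply (c : Y) (f : Finset Y → ℝ) (O : Finset Y) : A c f O = f (insert c O) := rfl

lemma A_comm (c c' : Y) : Commute (A c) (A c') := by
  refine ContinuousLinearMap.ext fun f => funext fun O => ?_
  change f (insert c' (insert c O)) = f (insert c (insert c' O))
  rw [Finset.insert_comm]

lemma A_pow (c : Y) (n : ℕ) (f : Finset Y → ℝ) (O : Finset Y) :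
    ((A c) ^ n) f O = if n = 0 then f O else f (insert c O) := by
  induction n generalizing O with
  | zero => simp
  | succ n ih =>
    rw [pow_succ']
    change ((A c) ^ n) f (insert c O) = _
    rw [ih]
    by_cases hn : n = 0 <;> simp [hn]

/-- Addition of a random point, as an operator. -/
noncomputable def T (μ : Y → ℝ) : Op Y := 1 + ∑ c, μ c • (A c - 1)

lemma T_apply (μ : Y → ℝ) (f : Finset Y → ℝ) : T μ f = addPt μ f := by
  funext O
  simp [T, addPt, A_apply]

lemma gen_comm (μ ν : Y → ℝ) (s t : Finset Y) :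
    Commute (∑ c ∈ s, μ c • (A c - 1)) (∑ c ∈ t, ν c • (A c - 1)) := by
  refine Commute.sum_left _ _ _ fun c _ => Commute.sum_right _ _ _ fun c' _ => ?_
  refine Commute.smul_left (Commute.smul_right ?_ _) _
  exact ((A_comm c c').sub_left (Commute.one_left _)).sub_right
    ((Commute.one_right _))

lemma T_comm (μ ν : Y → ℝ) : Commute (T μ) (T ν) := by
  unfold T
  exact ((Commute.one_left _).add_left ((Commute.one_right _).add_right (gen_comm _ _ _ _)))

/-- Nonnegative and decreasing. -/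
structure Good (f : Finset Y → ℝ) : Prop where
  nonneg : ∀ O, 0 ≤ f O
  anti : ∀ O O', O ⊆ O' → f O' ≤ f O

/-- Sub-probability. -/
structure Sub (μ : Y → ℝ) : Prop where
  nonneg : ∀ c, 0 ≤ μ c
  sum_le : ∑ c, μ c ≤ 1

lemma addPt_eq (μ : Y → ℝ) (f : Finset Y → ℝ) (O : Finset Y) :
    addPt μ f O = (1 - ∑ c, μ c) * f O + ∑ c, μ c * f (insert c O) := by
  unfold addPt
  simp only [mul_sub, Finset.sum_sub_distrib, ← Finset.sum_mul]
  ring

lemma T_mono {μ : Y → ℝ} (hμ : Sub μ) {f g : Finset Y → ℝ} (h : f ≤ g) : T μ f ≤ T μ g := by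
  rw [T_apply, T_apply]
  intro O
  rw [addPt_eq, addPt_eq]
  have h1 := hμ.sum_le
  refine add_le_add (mul_le_mul_of_nonneg_left (h O) (by linarith)) ?_
  exact Finset.sum_le_sum fun c _ => mul_le_mul_of_nonneg_left (h _) (hμ.nonneg c)

lemma T_good {μ : Y → ℝ} (hμ : Sub μ) {f : Finset Y → ℝ} (h : Good f) : Good (T μ f) := by
  have h1 := hμ.sum_le
  rw [T_apply]
  constructor
  · intro O
    rw [addPt_eq]
    refine add_nonneg (mul_nonneg (by linarith) (h.nonneg O)) ?_
    exact Finset.sum_nonneg fun c _ => mul_nonneg (hμ.nonneg c) (h.nonneg _)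
  · intro O O' hO
    rw [addPt_eq, addPt_eq]
    refine add_le_add (mul_le_mul_of_nonneg_left (h.anti _ _ hO) (by linarith)) ?_
    exact Finset.sum_le_sum fun c _ => mul_le_mul_of_nonneg_left
      (h.anti _ _ (Finset.insert_subset_insert c hO)) (hμ.nonneg c)

lemma T_anti {μ ν : Y → ℝ} (hν : ∀ c, ν c ≤ μ c) {f : Finset Y → ℝ} (h : Good f) :
    T μ f ≤ T ν f := by
  rw [T_apply, T_apply]
  intro O
  unfold addPt
  have : ∑ c, μ c * (f (insert c O) - f O) ≤ ∑ c, ν c * (f (insert c O) - f O) := by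
    refine Finset.sum_le_sum fun c _ => ?_
    have h1 := h.anti O (insert c O) (Finset.subset_insert _ _)
    exact mul_le_mul_of_nonpos_right (hν c) (by linarith)
  linarith

lemma T_le {ν : Y → ℝ} (hν : Sub ν) {f : Finset Y → ℝ} (h : Good f) : T ν f ≤ f := by
  have := T_anti (μ := ν) (ν := fun _ => 0) (fun c => hν.nonneg c) h
  refine this.trans ?_
  rw [T_apply]
  intro O
  simp [addPt]

/-! ## Powers -/

lemma Tpow_mono {μ : Y → ℝ} (hμ : Sub μ) (n : ℕ) {f g : Finset Y → ℝ} (h : f ≤ g) :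
    (T μ ^ n) f ≤ (T μ ^ n) g := by
  induction n with
  | zero => simpa using h
  | succ n ih =>
    rw [pow_succ']
    exact T_mono hμ ih

lemma Tpow_good {μ : Y → ℝ} (hμ : Sub μ) (n : ℕ) {f : Finset Y → ℝ} (h : Good f) :
    Good ((T μ ^ n) f) := by
  induction n with
  | zero => simpa using h
  | succ n ih =>
    rw [pow_succ']
    exact T_good hμ ih

lemma Tpow_anti {μ : Y → ℝ} (hμ : Sub μ) {f : Finset Y → ℝ} (h : Good f) :
    Antitone (fun n : ℕ => (T μ ^ n) f) := by
  refine antitone_nat_of_succ_le fun n => ?_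
  rw [pow_succ']
  exact T_le hμ (Tpow_good hμ n h)

/-! ## The exponential -/

/-- Evaluation. -/
noncomputable def ev (f : Finset Y → ℝ) (O : Finset Y) : Op Y →L[ℝ] ℝ :=
  (ContinuousLinearMap.proj O : (Finset Y → ℝ) →L[ℝ] ℝ).comp (ContinuousLinearMap.apply ℝ _ f)

lemma ev_apply (f : Finset Y → ℝ) (O : Finset Y) (B : Op Y) : ev f O B = B f O := rfl

lemma hasSum_exp (B : Op Y) (κ : ℝ) (f : Finset Y → ℝ) (O : Finset Y) :
    HasSum (fun n : ℕ => κ ^ n / n ! * (B ^ n) f O) (NormedSpace.exp (κ • B) f O) := by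
  have h := (ev f O).hasSum (NormedSpace.exp_series_hasSum_exp' (𝕂 := ℝ) (κ • B))
  simp only [ev_apply] at h
  convert h using 2 with n
  rw [smul_pow, smul_apply, smul_apply]
  simp only [Pi.smul_apply, smul_eq_mul]
  ring

lemma exp_sub_one (B : Op Y) (κ : ℝ) (f : Finset Y → ℝ) (O : Finset Y) :
    NormedSpace.exp (κ • (B - 1)) f O = Real.exp (-κ) * NormedSpace.exp (κ • B) f O := by
  have h1 : κ • (B - 1) = algebraMap ℝ (Op Y) (-κ) + κ • B := by
    rw [smul_sub, Algebra.algebraMap_eq_smul_one, neg_smul]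
    abel
  rw [h1, NormedSpace.exp_add_of_commute (Algebra.commute_algebraMap_left _ _),
    ← NormedSpace.algebraMap_exp_comm, ← Real.exp_eq_exp_ℝ, Algebra.algebraMap_eq_smul_one]
  simp

lemma exp_A (c : Y) (t : ℝ) (f : Finset Y → ℝ) (O : Finset Y) :
    NormedSpace.exp (t • (A c - 1)) f O =
      Real.exp (-t) * f O + (1 - Real.exp (-t)) * f (insert c O) := by
  rw [exp_sub_one]
  have h := hasSum_exp (A c) t f O
  have h2 : HasSum (fun n : ℕ => t ^ n / n ! * f (insert c O)) (Real.exp t * f (insert c O)) := by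
    refine HasSum.mul_right _ ?_
    rw [Real.exp_eq_exp_ℝ]
    exact NormedSpace.expSeries_div_hasSum_exp t
  have h3 : HasSum (fun n : ℕ => if n = 0 then f O - f (insert c O) else 0)
      (f O - f (insert c O)) := hasSum_ite_eq 0 _
  have h4 := h2.add h3
  have h5 : (fun n : ℕ => t ^ n / n ! * (A c ^ n) f O) = fun n : ℕ =>
      t ^ n / n ! * f (insert c O) + if n = 0 then f O - f (insert c O) else 0 := by
    funext n
    rw [A_pow]
    by_cases hn : n = 0
    · simp [hn]
    · simp [hn]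
  rw [h5] at h
  rw [h.unique h4]
  have : Real.exp (-t) * Real.exp t = 1 := by rw [← Real.exp_add]; simp
  linear_combination (f (insert c O)) * this

lemma exp_gen (t : Y → ℝ) (f : Finset Y → ℝ) (s O' : Finset Y) :
    NormedSpace.exp (∑ c ∈ s, t c • (A c - 1)) f O' =
      ∑ O ∈ s.powerset, (∏ c ∈ O, (1 - Real.exp (-t c))) *
        (∏ c ∈ s \ O, Real.exp (-t c)) * f (O' ∪ O) := by
  induction s using Finset.induction_on generalizing O' with
  | empty => simp
  | insert a s ha ih =>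
    have hc : Commute (t a • (A a - 1)) (∑ c ∈ s, t c • (A c - 1)) := by
      have := gen_comm t t {a} s
      simpa using this
    rw [Finset.sum_insert ha, NormedSpace.exp_add_of_commute hc]
    change NormedSpace.exp (t a • (A a - 1))
      (NormedSpace.exp (∑ c ∈ s, t c • (A c - 1)) f) O' = _
    rw [exp_A, ih, ih, Finset.sum_powerset_insert ha, Finset.mul_sum, Finset.mul_sum]
    congr 1
    · refine Finset.sum_congr rfl fun O hO => ?_
      have haO : a ∉ O := fun h => ha (Finset.mem_powerset.1 hO h)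
      rw [Finset.insert_sdiff_of_notMem _ haO, Finset.prod_insert (by simp [ha])]
      ring
    · refine Finset.sum_congr rfl fun O hO => ?_
      have haO : a ∉ O := fun h => ha (Finset.mem_powerset.1 hO h)
      rw [Finset.insert_sdiff_insert, Finset.sdiff_insert_of_notMem ha, Finset.prod_insert haO,
        Finset.union_insert, Finset.insert_union]
      ring

lemma exp_eq_poisEx (t : Y → ℝ) (f : Finset Y → ℝ) :
    NormedSpace.exp (∑ c, t c • (A c - 1)) f ∅ = poisEx t f := by
  rw [exp_gen, poisEx]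
  simp only [Finset.powerset_univ, Finset.empty_union]
  rfl

/-! ## Poissonization -/

lemma poisson_mean (κ : ℝ) :
    HasSum (fun n : ℕ => κ ^ n / (n ! : ℝ) * (n : ℝ)) (κ * Real.exp κ) := by
  have h1 : HasSum (fun n : ℕ => κ ^ n / (n ! : ℝ)) (Real.exp κ) := by
    rw [Real.exp_eq_exp_ℝ]
    exact NormedSpace.expSeries_div_hasSum_exp κ
  have h2 := h1.mul_left κ
  have h3 : (fun n : ℕ => κ * (κ ^ n / (n ! : ℝ))) =
      fun n : ℕ => (fun n : ℕ => κ ^ n / (n ! : ℝ) * (n : ℝ)) (n + 1) := by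
    funext n
    have : (n ! : ℝ) ≠ 0 := by positivity
    have h' : ((n : ℝ) + 1) ≠ 0 := by positivity
    simp only
    rw [Nat.factorial_succ]
    push_cast
    field_simp
    ring
  rw [h3] at h2
  have h4 := (hasSum_nat_add_iff (f := fun n : ℕ => κ ^ n / (n ! : ℝ) * (n : ℝ)) 1).1 h2
  simpa using h4

lemma pow_le_exp {ν : Y → ℝ} (hν : Sub ν) {κ ρ : ℝ} {N : ℕ} (hκ : 0 ≤ κ) (hρ : ρ < 1)
    (hκN : κ ≤ ρ * N) (hN : 0 < N) {f : Finset Y → ℝ} (hf : Good f) :
    (T ν ^ N) f ≤ (1 - ρ)⁻¹ • NormedSpace.exp (κ • (T ν - 1)) f := by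
  intro O
  have hN' : (0:ℝ) < N := by exact_mod_cast hN
  have hρ' : 0 < 1 - ρ := by linarith
  rw [Pi.smul_apply, smul_eq_mul, inv_mul_eq_div, le_div_iff₀ hρ', exp_sub_one]
  have h1 := hasSum_exp (T ν) κ f O
  have h2 : HasSum (fun n : ℕ => κ ^ n / n !) (Real.exp κ) := by
    rw [Real.exp_eq_exp_ℝ]
    exact NormedSpace.expSeries_div_hasSum_exp κ
  have h3 : HasSum (fun n : ℕ => (κ ^ n / (n ! : ℝ) - (κ ^ n / (n ! : ℝ) * (n : ℝ)) * (N:ℝ)⁻¹) * (T ν ^ N) f O)
      ((Real.exp κ - κ * Real.exp κ * (N:ℝ)⁻¹) * (T ν ^ N) f O) :=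
    (h2.sub ((poisson_mean κ).mul_right _)).mul_right _
  have h4 : (Real.exp κ - κ * Real.exp κ * (N:ℝ)⁻¹) * (T ν ^ N) f O ≤
      NormedSpace.exp (κ • T ν) f O := by
    refine hasSum_le (fun n => ?_) h3 h1
    have ha : 0 ≤ (T ν ^ N) f O := (Tpow_good hν N hf).nonneg O
    have hb : 0 ≤ (T ν ^ n) f O := (Tpow_good hν n hf).nonneg O
    have hp : 0 ≤ κ ^ n / (n ! : ℝ) := by positivity
    have : (κ ^ n / (n ! : ℝ) - (κ ^ n / (n ! : ℝ) * (n : ℝ)) * (N:ℝ)⁻¹) * (T ν ^ N) f O =
        κ ^ n / (n ! : ℝ) * ((1 - (n : ℝ) * (N:ℝ)⁻¹) * (T ν ^ N) f O) := by ring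
    rw [this]
    refine mul_le_mul_of_nonneg_left ?_ hp
    rcases le_total n N with hnN | hnN
    · have hle : (T ν ^ N) f O ≤ (T ν ^ n) f O := Tpow_anti hν hf hnN O
      have hq : 0 ≤ (n:ℝ) * (N:ℝ)⁻¹ := by positivity
      nlinarith
    · have hq : 1 ≤ (n:ℝ) * (N:ℝ)⁻¹ := by
        rw [← div_eq_mul_inv, le_div_iff₀ hN']
        rw [one_mul]
        exact_mod_cast hnN
      nlinarith
  have h5 : Real.exp (-κ) * Real.exp κ = 1 := by rw [← Real.exp_add]; simp
  have h6 : κ * (N:ℝ)⁻¹ ≤ ρ := by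
    rw [← div_eq_mul_inv, div_le_iff₀ hN']
    exact hκN
  have ha : 0 ≤ (T ν ^ N) f O := (Tpow_good hν N hf).nonneg O
  calc (T ν ^ N) f O * (1 - ρ) ≤ (T ν ^ N) f O * (1 - κ * (N:ℝ)⁻¹) :=
        mul_le_mul_of_nonneg_left (by linarith) ha
    _ = Real.exp (-κ) * ((Real.exp κ - κ * Real.exp κ * (N:ℝ)⁻¹) * (T ν ^ N) f O) := by
        linear_combination (-(T ν ^ N) f O * (1 - κ * (N:ℝ)⁻¹)) * h5
    _ ≤ _ := mul_le_mul_of_nonneg_left h4 (Real.exp_pos _).le

lemma exp_mono {ν : Y → ℝ} (hν : Sub ν) {κ : ℝ} (hκ : 0 ≤ κ) {f g : Finset Y → ℝ} (h : f ≤ g) :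
    NormedSpace.exp (κ • (T ν - 1)) f ≤ NormedSpace.exp (κ • (T ν - 1)) g := by
  intro O
  rw [exp_sub_one, exp_sub_one]
  refine mul_le_mul_of_nonneg_left ?_ (Real.exp_pos _).le
  refine hasSum_le (fun n => ?_) (hasSum_exp (T ν) κ f O) (hasSum_exp (T ν) κ g O)
  exact mul_le_mul_of_nonneg_left (Tpow_mono hν n h O) (by positivity)

/-! ## Lists -/

variable {W : Type} (ν : W → Y → ℝ)

lemma list_good (hν : ∀ w, Sub (ν w)) (l : List W) {f : Finset Y → ℝ} (h : Good f) :
    Good ((l.map (fun w => T (ν w))).prod f) := by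
  induction l with
  | nil => simpa using h
  | cons w l ih =>
    rw [List.map_cons, List.prod_cons]
    exact T_good (hν w) ih

lemma list_le (hν : ∀ w, Sub (ν w)) (l : List W) {f : Finset Y → ℝ} (h : Good f) :
    (l.map (fun w => T (ν w))).prod f ≤ f := by
  induction l with
  | nil => simp
  | cons w l ih =>
    rw [List.map_cons, List.prod_cons]
    exact (T_le (hν w) (list_good ν hν l h)).trans ih

lemma list_split [DecidableEq W] (l : List W) (w : W) :
    (l.map (fun w => T (ν w))).prod =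
      T (ν w) ^ (l.count w) * ((l.filter (fun x => x ≠ w)).map (fun w => T (ν w))).prod := by
  induction l with
  | nil => simp
  | cons x l ih =>
    rw [List.map_cons, List.prod_cons, ih]
    by_cases hx : x = w
    · subst hx
      simp [pow_succ', mul_assoc]
    · rw [List.count_cons_of_ne hx, List.filter_cons_of_pos (by simpa using hx), List.map_cons,
        List.prod_cons]
      rw [← mul_assoc, ← mul_assoc, ((T_comm (ν x) (ν w)).pow_right _).eq]

lemma main [DecidableEq W] {κ ρ : ℝ} {N : ℕ} (hκ : 0 ≤ κ) (hρ : ρ < 1)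
    (hκN : κ ≤ ρ * N) (hN : 0 < N) (hν : ∀ w, Sub (ν w)) (s : Finset W) :
    ∀ l : List W, (∀ w ∈ s, N ≤ l.count w) → ∀ f : Finset Y → ℝ, Good f →
      (l.map (fun w => T (ν w))).prod f ≤
        ((1 - ρ)⁻¹ ^ s.card) • NormedSpace.exp (∑ w ∈ s, κ • (T (ν w) - 1)) f := by
  induction s using Finset.induction_on with
  | empty =>
    intro l _ f hf
    simpa using list_le ν hν l hf
  | insert w s hw ih =>
    intro l hl f hf
    have hρ' : 0 < 1 - ρ := by linarith
    set l2 := l.filter (fun x => x ≠ w) with hl2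
    have hcount : ∀ w' ∈ s, N ≤ l2.count w' := by
      intro w' hw'
      have hne : w' ≠ w := fun h => hw (h ▸ hw')
      rw [hl2, List.count_filter (by simpa using hne)]
      exact hl w' (Finset.mem_insert_of_mem hw')
    have h1 := ih l2 hcount f hf
    have hg : Good ((l2.map (fun w => T (ν w))).prod f) := list_good ν hν l2 hf
    have hc : Commute (κ • (T (ν w) - 1)) (∑ w ∈ s, κ • (T (ν w) - 1)) := by
      refine Commute.sum_right _ _ _ fun w' _ => ?_
      refine Commute.smul_left (Commute.smul_right ?_ _) _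
      exact ((T_comm _ _).sub_left (Commute.one_left _)).sub_right (Commute.one_right _)
    rw [list_split ν l w, Finset.sum_insert hw, NormedSpace.exp_add_of_commute hc,
      Finset.card_insert_of_notMem hw, pow_succ']
    change (T (ν w) ^ (l.count w)) ((l2.map (fun w => T (ν w))).prod f) ≤ _
    have h2 : (T (ν w) ^ (l.count w)) ((l2.map (fun w => T (ν w))).prod f) ≤
        (T (ν w) ^ N) ((l2.map (fun w => T (ν w))).prod f) :=
      Tpow_anti (hν w) hg (hl w (Finset.mem_insert_self _ _))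
    have h3 := pow_le_exp (hν w) hκ hρ hκN hN hg
    have h4 := exp_mono (hν w) hκ h1
    refine h2.trans (h3.trans ?_)
    rw [map_smul] at h4
    rw [mul_smul]
    change _ ≤ (1 - ρ)⁻¹ • (1 - ρ)⁻¹ ^ #s • (NormedSpace.exp (κ • (T (ν w) - 1)))
      ((NormedSpace.exp (∑ w ∈ s, κ • (T (ν w) - 1))) f)
    intro O
    have h5 := h4 O
    simp only [Pi.smul_apply, smul_eq_mul] at h5 ⊢
    exact mul_le_mul_of_nonneg_left h5 (inv_pos.2 hρ').le

lemma foldr_le (hν : ∀ w, Sub (ν w)) (l : List (W × (Y → ℝ)))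
    (hl : ∀ q ∈ l, Sub q.2 ∧ ∀ c, ν q.1 c ≤ q.2 c) {f : Finset Y → ℝ} (hf : Good f) :
    l.foldr (fun q g => addPt q.2 g) f ≤
      ((l.map Prod.fst).map (fun w => T (ν w))).prod f := by
  induction l with
  | nil => simp
  | cons q l ih =>
    rw [List.foldr_cons, List.map_cons, List.map_cons, List.prod_cons, ← T_apply]
    have hq := hl q (by simp)
    have h1 := ih (fun q' hq' => hl q' (by simp [hq']))
    refine (T_mono hq.1 h1).trans ?_
    exact T_anti hq.2 (list_good ν hν _ hf)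

theorem compare : S_compare := by
  classical
  intro Y _ _ W _ l ν κ N ρ hκ hρ hκN hN hl hν0 hν1 hcount f hf0 hf1
  have hν : ∀ w, Sub (ν w) := fun w => ⟨hν0 w, hν1 w⟩
  have hf : Good f := ⟨hf0, hf1⟩
  have h1 := foldr_le ν hν l (fun q hq => ⟨⟨(hl q hq).1, (hl q hq).2.1⟩, (hl q hq).2.2⟩) hf
  have hc : ∀ w ∈ (Finset.univ : Finset W), N ≤ (l.map Prod.fst).count w := by
    intro w _
    refine (hcount w).trans (le_of_eq ?_)
    rw [List.count, List.countP_map, List.countP_eq_length_filter]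
    congr 1
  have h2 := main ν hκ hρ hκN hN hν Finset.univ (l.map Prod.fst) hc f hf
  refine (h1 ∅).trans ((h2 ∅).trans (le_of_eq ?_))
  rw [Pi.smul_apply, smul_eq_mul, Finset.card_univ, ← exp_eq_poisEx]
  congr 2
  have : ∑ w, κ • (T (ν w) - 1) = ∑ c, (κ * ∑ w, ν w c) • (A c - 1) := by
    simp only [T, add_sub_cancel_left]
    rw [← Finset.smul_sum, Finset.sum_comm, Finset.smul_sum]
    refine Finset.sum_congr rfl fun c _ => ?_
    rw [← Finset.sum_smul, smul_smul]
  rw [this]

end Pool.Agent.Helper114_LP.Cmp
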