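import Pool.Agent.Helper712_LP.Stmts

/-!
# MP_f368f5_pr: random sets of cells, and elementary properties of `theta`

`measConn : S_measConn`, `law : S_law`, `basic : S_basic`.
-/

set_option autoImplicit false

namespace Pool.Agent.Helper114_LP

open MeasureTheory ProbabilityTheory Set Filter Topology
open scoped ENNReal NNReal
open Pool.Agent.Helper712_LP

/-! ## Elementary facts about `Reach` and `Conn` -/

lemma reach_mono {d : ℕ} {U V : Set (Fin d → ℤ)} (h : U ⊆ V) {z z' : Fin d → ℤ}
    (hr : Reach U z z') : Reach V z z' :=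
  ⟨h hr.1, Relation.ReflTransGen.mono (fun _ _ hab => ⟨hab.1, h hab.2⟩) _ _ hr.2⟩

lemma conn_mono {d : ℕ} {U V : Set (Fin d → ℤ)} (h : U ⊆ V) {z : Fin d → ℤ} {n : ℕ}
    (hc : Conn U z n) : Conn V z n := by
  obtain ⟨z', hz', hr⟩ := hc
  exact ⟨z', hz', reach_mono h hr⟩

lemma vac_anti {d : ℕ} (K : Finset (Fin d → ℤ)) {O O' : Set (Fin d → ℤ)} (h : O ⊆ O') :
    vac K O' ⊆ vac K O := fun _ hz k hk hO => hz k hk (h hO)

/-- Translation by `t`. -/
lemma reach_translate {d : ℕ} {U : Set (Fin d → ℤ)} (t : Fin d → ℤ) {z z' : Fin d → ℤ}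
    (hr : Reach {x | x + t ∈ U} z z') : Reach U (z + t) (z' + t) := by
  refine ⟨hr.1, ?_⟩
  refine Relation.ReflTransGen.lift (fun x => x + t) ?_ _ _ hr.2
  intro a b hab
  refine ⟨fun j => ?_, hab.2⟩
  have := hab.1 j
  simpa using this

lemma conn_translate {d : ℕ} (U : Set (Fin d → ℤ)) (t z : Fin d → ℤ) (n : ℕ) :
    Conn {x | x + t ∈ U} z n ↔ Conn U (z + t) n := by
  constructor
  · rintro ⟨z', ⟨j, hj⟩, hr⟩
    refine ⟨z' + t, ⟨j, ?_⟩, reach_translate t hr⟩
    simpa using hj
  · rintro ⟨z', ⟨j, hj⟩, hr⟩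
    refine ⟨z' - t, ⟨j, ?_⟩, ?_⟩
    · have : (z' - t) j - z j = z' j - (z + t) j := by simp; ring
      rw [this]; exact hj
    · have hU : {x | x + -t ∈ {y : Fin d → ℤ | y + t ∈ U}} = U := by
        ext x; simp
      have h := reach_translate (U := {y : Fin d → ℤ | y + t ∈ U}) (-t) (z := z + t) (z' := z')
        (by rw [hU]; exact hr)
      simpa [sub_eq_add_neg] using h

/-! ## Measurability -/

/-- `z'` can be reached from `z` inside `U` with `k` steps (a recursive form). -/
def StepReach {d : ℕ} (U : Set (Fin d → ℤ)) (z : Fin d → ℤ) : ℕ → (Fin d → ℤ) → Prop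
  | 0, z' => z = z'
  | k + 1, z' => ∃ y, StepReach U z k y ∧ adj y z' ∧ z' ∈ U

lemma reach_iff {d : ℕ} (U : Set (Fin d → ℤ)) (z z' : Fin d → ℤ) :
    Reach U z z' ↔ z ∈ U ∧ ∃ k, StepReach U z k z' := by
  unfold Reach
  refine and_congr_right fun _ => ?_
  constructor
  · intro h
    induction h with
    | refl => exact ⟨0, rfl⟩
    | tail _ hbc ih =>
      obtain ⟨k, hk⟩ := ih
      exact ⟨k + 1, _, hk, hbc.1, hbc.2⟩
  · rintro ⟨k, hk⟩
    induction k generalizing z' with
    | zero => cases hk; exact .refl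
    | succ k ih =>
      obtain ⟨y, hy, hadj, hU⟩ := hk
      exact (ih y hy).tail ⟨hadj, hU⟩

lemma measurableSet_stepReach {d : ℕ} {Ω : Type} [MeasurableSpace Ω] (U : Ω → Set (Fin d → ℤ))
    (hU : ∀ z, MeasurableSet {ω | z ∈ U ω}) (z : Fin d → ℤ) (k : ℕ) (z' : Fin d → ℤ) :
    MeasurableSet {ω | StepReach (U ω) z k z'} := by
  induction k generalizing z' with
  | zero => exact MeasurableSet.const _
  | succ k ih =>
    simp only [StepReach, ofPred_exists]
    exact MeasurableSet.iUnion fun y => (ih y).inter ((MeasurableSet.const _).inter (hU z'))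

lemma measurableSet_reach {d : ℕ} {Ω : Type} [MeasurableSpace Ω] (U : Ω → Set (Fin d → ℤ))
    (hU : ∀ z, MeasurableSet {ω | z ∈ U ω}) (z z' : Fin d → ℤ) :
    MeasurableSet {ω | Reach (U ω) z z'} := by
  simp only [reach_iff, ofPred_and, ofPred_exists]
  exact (hU z).inter (MeasurableSet.iUnion fun k => measurableSet_stepReach U hU z k z')

lemma measurableSet_conn {d : ℕ} {Ω : Type} [MeasurableSpace Ω] (U : Ω → Set (Fin d → ℤ))
    (hU : ∀ z, MeasurableSet {ω | z ∈ U ω}) (z : Fin d → ℤ) (n : ℕ) :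
    MeasurableSet {ω | Conn (U ω) z n} := by
  simp only [Conn, ofPred_exists, ofPred_and]
  exact MeasurableSet.iUnion fun z' => (MeasurableSet.iUnion fun _ => MeasurableSet.const _).inter
    (measurableSet_reach U hU z z')

lemma measurableSet_vac {d : ℕ} {Ω : Type} [MeasurableSpace Ω] (O : Ω → Set (Fin d → ℤ))
    (hO : ∀ z, MeasurableSet {ω | z ∈ O ω}) (K : Finset (Fin d → ℤ)) (z : Fin d → ℤ) :
    MeasurableSet {ω | z ∈ vac K (O ω)} := by
  have : {ω | z ∈ vac K (O ω)} = ⋂ k ∈ K, {ω | z + k ∈ O ω}ᶜ := by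
    ext ω; simp [vac]
  rw [this]
  exact Finset.measurableSet_biInter _ fun k _ => (hO _).compl

theorem measConn : S_measConn := by
  intro d Ω m O hO K z n
  exact measurableSet_conn (fun ω => vac K (O ω)) (fun z => measurableSet_vac O hO K z) z n

/-! ## The law -/

/-- The σ-algebra on the configurations is generated by the events that a finite set of bits
is `true`. -/
def cyls (ι : Type) : Set (Set (ι → Bool)) :=
  {s | ∃ F : Finset ι, s = {b | ∀ y ∈ F, b y = true}}

lemma isPiSystem_cyls (ι : Type) : IsPiSystem (cyls ι) := by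
  classical
  rintro _ ⟨F, rfl⟩ _ ⟨G, rfl⟩ _
  refine ⟨F ∪ G, ?_⟩
  ext b
  simp only [mem_inter_iff, mem_ofPred_eq, Finset.mem_union]
  constructor
  · rintro ⟨h1, h2⟩ y (hy | hy)
    · exact h1 y hy
    · exact h2 y hy
  · intro h
    exact ⟨fun y hy => h y (Or.inl hy), fun y hy => h y (Or.inr hy)⟩

lemma generateFrom_cyls (ι : Type) :
    (MeasurableSpace.pi : MeasurableSpace (ι → Bool)) =
      MeasurableSpace.generateFrom (cyls ι) := by
  apply le_antisymm
  · refine iSup_le fun i => ?_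
    rw [← measurable_iff_comap_le]
    refine @measurable_to_bool _ (MeasurableSpace.generateFrom (cyls ι)) _ ?_
    refine MeasurableSpace.measurableSet_generateFrom ⟨{i}, ?_⟩
    ext b
    simp
  · refine MeasurableSpace.generateFrom_le ?_
    rintro _ ⟨F, rfl⟩
    have : {b : ι → Bool | ∀ y ∈ F, b y = true} = ⋂ y ∈ F, {b | b y = true} := by
      ext b; simp
    rw [this]
    exact Finset.measurableSet_biInter _ fun y _ =>
      measurableSet_eq_fun (measurable_pi_apply y) measurable_const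

lemma bern_true {p : ℝ} (h0 : 0 ≤ p) (h1 : p ≤ 1) :
    bern p {true} = ENNReal.ofReal p := by
  unfold bern
  rw [bernoulliMeasure_apply_of_mem_of_notMem _ (measurableSet_singleton _) (by simp) (by simp)]
  rw [Set.projIcc_of_mem zero_le_one (⟨h0, h1⟩ : p ∈ Icc (0:ℝ) 1)]
  rw [ENNReal.ofReal]
  congr 1
  ext
  simp [h0]

lemma mu_cyl {d : ℕ} {p : ℝ} (h0 : 0 ≤ p) (h1 : p ≤ 1) (F : Finset (Fin d → ℤ)) :
    mu d p {b | ∀ y ∈ F, b y = true} = ENNReal.ofReal (p ^ F.card) := by
  have : {b : (Fin d → ℤ) → Bool | ∀ y ∈ F, b y = true} =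
      Set.pi (F : Set (Fin d → ℤ)) (fun _ => {true}) := by
    ext b; simp [Set.pi]
  rw [this, mu, Measure.infinitePi_pi _ (fun _ _ => measurableSet_singleton _)]
  simp [bern_true h0 h1, ENNReal.ofReal_pow h0]

/-- A measure on the configurations with the right void probabilities is the product measure. -/
lemma eq_mu {d : ℕ} {p : ℝ} (h0 : 0 ≤ p) (h1 : p ≤ 1) (ν : Measure ((Fin d → ℤ) → Bool))
    [IsProbabilityMeasure ν]
    (h : ∀ F : Finset (Fin d → ℤ), ν {b | ∀ y ∈ F, b y = true} = ENNReal.ofReal (p ^ F.card)) :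
    ν = mu d p := by
  refine ext_of_generate_finite (cyls (Fin d → ℤ)) (generateFrom_cyls _) (isPiSystem_cyls _) ?_ ?_
  · rintro _ ⟨F, rfl⟩
    rw [h F, mu_cyl h0 h1]
  · simp

lemma measurableSet_occOf {d : ℕ} (z : Fin d → ℤ) :
    MeasurableSet {b : (Fin d → ℤ) → Bool | z ∈ occOf b} :=
  measurableSet_eq_fun (measurable_pi_apply z) measurable_const

theorem law : S_law := by
  classical
  intro d Ω _ P _ O p h0 h1 hO hvoid K z n
  set Φ : Ω → (Fin d → ℤ) → Bool := fun ω y => decide (y + z ∉ O ω) with hΦ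
  have hΦm : Measurable Φ := by
    refine measurable_pi_lambda _ fun y => ?_
    refine measurable_to_bool ?_
    have : (fun ω => Φ ω y) ⁻¹' {true} = {ω | y + z ∈ O ω}ᶜ := by
      ext ω; simp [hΦ]
    rw [this]
    exact (hO _).compl
  have hlaw : P.map Φ = mu d p := by
    have : IsProbabilityMeasure (P.map Φ) := Measure.isProbabilityMeasure_map hΦm.aemeasurable
    refine eq_mu h0 h1 _ fun F => ?_
    rw [Measure.map_apply hΦm]
    · have : Φ ⁻¹' {b | ∀ y ∈ F, b y = true} =
          {ω | ∀ y ∈ F.map (addRightEmbedding z), y ∉ O ω} := by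
        ext ω; simp [hΦ]
      rw [this, hvoid, Finset.card_map]
    · have : {b : (Fin d → ℤ) → Bool | ∀ y ∈ F, b y = true} = ⋂ y ∈ F, {b | b y = true} := by
        ext b; simp
      rw [this]
      exact Finset.measurableSet_biInter _ fun y _ =>
        measurableSet_eq_fun (measurable_pi_apply y) measurable_const
  have hev : {ω | Conn (vac K (O ω)) z n} = Φ ⁻¹' {b | Conn (vac K (occOf b)) 0 n} := by
    ext ω
    simp only [mem_ofPred_eq, mem_preimage]
    have h := conn_translate (vac K (O ω)) z 0 n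
    rw [zero_add] at h
    rw [← h]
    have hset : {x | x + z ∈ vac K (O ω)} = vac K (occOf (Φ ω)) := by
      ext x
      simp only [vac, occOf, hΦ, mem_ofPred_eq, decide_eq_false_iff_not, not_not]
      refine forall₂_congr fun k _ => ?_
      rw [add_right_comm]
    rw [hset]
  rw [hev, ← Measure.map_apply hΦm (measurableSet_conn _
    (fun y => measurableSet_vac _ (fun w => measurableSet_occOf w) K y) 0 n), hlaw, theta,
    ofReal_measureReal]

/-! ## Elementary properties of `theta` -/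

/-- The monotone coupling. -/
lemma theta_mono {d : ℕ} (K : Finset (Fin d → ℤ)) (n : ℕ) :
    MonotoneOn (theta d K n) (Icc 0 1) := by
  classical
  -- independent uniform variables
  have hprob : IsProbabilityMeasure (volume.restrict (Icc (0:ℝ) 1)) := ⟨by simp⟩
  set Q : Measure ((Fin d → ℤ) → ℝ) := Measure.infinitePi
    (fun _ : Fin d → ℤ => (volume.restrict (Icc (0:ℝ) 1))) with hQ
  let Φ : ℝ → ((Fin d → ℤ) → ℝ) → (Fin d → ℤ) → Bool := fun p u y => decide (u y ≤ p)
  have hΦm : ∀ p, Measurable (Φ p) := by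
    intro p
    refine measurable_pi_lambda _ fun y => ?_
    refine measurable_to_bool ?_
    have : (fun u => Φ p u y) ⁻¹' {true} = (fun u : (Fin d → ℤ) → ℝ => u y) ⁻¹' (Iic p) := by
      ext u; simp [Φ]
    rw [this]
    exact measurable_pi_apply y measurableSet_Iic
  have hlaw : ∀ p ∈ Icc (0:ℝ) 1, Q.map (Φ p) = mu d p := by
    intro p hp
    have : IsProbabilityMeasure (Q.map (Φ p)) :=
      Measure.isProbabilityMeasure_map (hΦm p).aemeasurable
    refine eq_mu hp.1 hp.2 _ fun F => ?_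
    rw [Measure.map_apply (hΦm p)]
    · have : Φ p ⁻¹' {b | ∀ y ∈ F, b y = true} =
          Set.pi (F : Set (Fin d → ℤ)) (fun _ => Iic p) := by
        ext u; simp [Φ, Set.pi]
      rw [this, hQ, Measure.infinitePi_pi _ (fun _ _ => measurableSet_Iic)]
      have hIic : (volume.restrict (Icc (0:ℝ) 1)) (Iic p) = ENNReal.ofReal p := by
        rw [Measure.restrict_apply measurableSet_Iic]
        have : Iic p ∩ Icc (0:ℝ) 1 = Icc 0 p := by
          ext x
          simp only [mem_inter_iff, mem_Iic, mem_Icc]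
          constructor
          · rintro ⟨h1, h2, h3⟩; exact ⟨h2, h1⟩
          · rintro ⟨h1, h2⟩; exact ⟨h2, h1, h2.trans hp.2⟩
        rw [this, Real.volume_Icc, sub_zero]
      simp [hIic, ENNReal.ofReal_pow hp.1]
    · have : {b : (Fin d → ℤ) → Bool | ∀ y ∈ F, b y = true} = ⋂ y ∈ F, {b | b y = true} := by
        ext b; simp
      rw [this]
      exact Finset.measurableSet_biInter _ fun y _ =>
        measurableSet_eq_fun (measurable_pi_apply y) measurable_const
  have hA : MeasurableSet {b : (Fin d → ℤ) → Bool | Conn (vac K (occOf b)) 0 n} :=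
    measurableSet_conn _ (fun y => measurableSet_vac _ (fun w => measurableSet_occOf w) K y) 0 n
  have hth : ∀ p ∈ Icc (0:ℝ) 1, theta d K n p = Q.real {u | Conn (vac K (occOf (Φ p u))) 0 n} := by
    intro p hp
    rw [theta, ← hlaw p hp, map_measureReal_apply (hΦm p) hA]
    rfl
  intro p hp q hq hpq
  rw [hth p hp, hth q hq]
  refine measureReal_mono ?_
  intro u hu
  refine conn_mono (vac_anti K ?_) hu
  intro y hy
  simp only [occOf, Φ, mem_ofPred_eq, decide_eq_false_iff_not, not_le] at hy ⊢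
  exact lt_of_le_of_lt hpq hy

theorem basic : S_basic := by
  intro d hd K
  refine ⟨fun n p => ⟨measureReal_nonneg, measureReal_le_one⟩, fun n p => ?_, fun p h0 h1 => ?_,
    theta_mono K⟩
  · refine measureReal_mono ?_
    rintro b ⟨z', ⟨j, hj⟩, hr⟩
    exact ⟨z', ⟨j, by push_cast at hj; omega⟩, hr⟩
  · have hpos : 0 < mu d p {b | ∀ y ∈ K, b y = true} := by
      rw [mu_cyl h0.le h1]
      positivity
    have hsub : {b : (Fin d → ℤ) → Bool | ∀ y ∈ K, b y = true} ⊆
        {b | Conn (vac K (occOf b)) 0 0} := by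
      intro b hb
      refine ⟨0, ⟨⟨0, hd⟩, by simp⟩, ?_, .refl⟩
      intro k hk
      simp [occOf, hb k hk]
    unfold theta
    rw [measureReal_def]
    refine ENNReal.toReal_pos ?_ (measure_ne_top _ _)
    exact (lt_of_lt_of_le hpos (measure_mono hsub)).ne'

end Pool.Agent.Helper114_LP
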