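import Pool.Agent.Helper712_LP.Stmts
import Pool.Agent.Helper114_LP.MeasLaw

/-!
# MP_f368f5_pr: expectations over independent points, and the finite product formula for `theta`
-/

set_option autoImplicit false

namespace Pool.Agent.Helper114_LP.Dec

open MeasureTheory ProbabilityTheory Set Filter Topology
open scoped ENNReal NNReal
open Pool.Agent.Helper712_LP

variable {d : ℕ} {Ω : Type}

/-- The cell of the point `i`. -/
def C (D : ℕ × Fin d → Ω → ℤ) (i : ℕ) (ω : Ω) : Fin d → ℤ := fun j => D (i, j) ω

open Classical in
/-- The occupied cells of the box `B`. -/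
noncomputable def R (D : ℕ × Fin d → Ω → ℤ) (B : Finset (Fin d → ℤ)) (is : List ℕ) (ω : Ω) :
    Finset B :=
  Finset.univ.filter (fun c : B => ∃ i ∈ is, C D i ω = c.1)

lemma mem_R {D : ℕ × Fin d → Ω → ℤ} {B : Finset (Fin d → ℤ)} {is : List ℕ} {ω : Ω} {c : B} :
    c ∈ R D B is ω ↔ ∃ i ∈ is, C D i ω = c.1 := by
  simp [R]

variable [MeasurableSpace Ω]

lemma measurableSet_C (D : ℕ × Fin d → Ω → ℤ) (hD : ∀ q, Measurable (D q)) (i : ℕ)
    (c : Fin d → ℤ) : MeasurableSet {ω | C D i ω = c} := by
  have : Measurable (C D i) := measurable_pi_lambda _ fun j => hD (i, j)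
  exact this (measurableSet_singleton c)

/-- The points of `is` as a function of the coordinates. -/
noncomputable def G (B : Finset (Fin d → ℤ)) (is : List ℕ) (h : Finset B → ℝ)
    (x : ((is.toFinset ×ˢ Finset.univ : Finset (ℕ × Fin d)) : Type) → ℤ) : ℝ :=
  open Classical in
  h (Finset.univ.filter (fun c : B => ∃ k, ∃ hk : k ∈ is, (fun j => x ⟨(k, j), by simp [hk]⟩) = c.1))

lemma G_eq (D : ℕ × Fin d → Ω → ℤ) (B : Finset (Fin d → ℤ)) (is : List ℕ) (h : Finset B → ℝ)
    (ω : Ω) : G B is h (fun q => D q.1 ω) = h (R D B is ω) := by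
  unfold G R
  congr 1
  ext c
  simp only [Finset.mem_filter, Finset.mem_univ, true_and]
  constructor
  · rintro ⟨k, hk, h⟩; exact ⟨k, hk, h⟩
  · rintro ⟨k, hk, h⟩; exact ⟨k, hk, h⟩

lemma measurable_R (D : ℕ × Fin d → Ω → ℤ) (hD : ∀ q, Measurable (D q))
    (B : Finset (Fin d → ℤ)) (is : List ℕ) (h : Finset B → ℝ) :
    Measurable (fun ω => h (R D B is ω)) := by
  simp_rw [← G_eq]
  exact (Measurable.of_discrete (f := G B is h)).comp (measurable_pi_lambda _ fun q => hD q.1)

lemma integrable_R (P : Measure Ω) [IsProbabilityMeasure P] (D : ℕ × Fin d → Ω → ℤ)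
    (hD : ∀ q, Measurable (D q))
    (B : Finset (Fin d → ℤ)) (is : List ℕ) (h : Finset B → ℝ) :
    Integrable (fun ω => h (R D B is ω)) P := by
  refine Integrable.of_bound (measurable_R D hD B is h).aestronglyMeasurable (∑ O, |h O|)
    (Filter.Eventually.of_forall fun ω => ?_)
  rw [Real.norm_eq_abs]
  exact Finset.single_le_sum (f := fun O => |h O|) (fun _ _ => abs_nonneg _) (Finset.mem_univ _)

lemma indep_int (P : Measure Ω) [IsProbabilityMeasure P] (D : ℕ × Fin d → Ω → ℤ)
    (hD : ∀ q, Measurable (D q)) (hi : iIndepFun D P) (B : Finset (Fin d → ℤ)) (is : List ℕ)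
    (i : ℕ) (hn : i ∉ is) (c : Fin d → ℤ) (h : Finset B → ℝ) :
    ∫ ω, (if C D i ω = c then (1:ℝ) else 0) * h (R D B is ω) ∂P =
      P.real {ω | C D i ω = c} * ∫ ω, h (R D B is ω) ∂P := by
  classical
  have hdisj : Disjoint (({i} : Finset ℕ) ×ˢ (Finset.univ : Finset (Fin d)))
      (is.toFinset ×ˢ (Finset.univ : Finset (Fin d))) := by
    rw [Finset.disjoint_left]
    rintro ⟨a, b⟩ h1 h2
    simp only [Finset.mem_product, Finset.mem_singleton, Finset.mem_univ, and_true,
      List.mem_toFinset] at h1 h2
    exact hn (h1 ▸ h2)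
  have hind := iIndepFun.indepFun_finset _ _ hdisj hi hD
  let F : ((({i} : Finset ℕ) ×ˢ (Finset.univ : Finset (Fin d)) : Finset (ℕ × Fin d)) → ℤ) → ℝ :=
    fun x => if (fun j => x ⟨(i, j), by simp⟩) = c then 1 else 0
  have key := hind.integral_fun_comp_mul_comp (f := F) (g := G B is h)
    (measurable_pi_lambda _ fun q => hD _).aemeasurable
    (measurable_pi_lambda _ fun q => hD _).aemeasurable
    (Measurable.of_discrete).aestronglyMeasurable (Measurable.of_discrete).aestronglyMeasurable
  simp only [G_eq] at key
  have hF : ∀ ω, F (fun q => D q.1 ω) = if C D i ω = c then (1:ℝ) else 0 := fun ω => rfl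
  simp only [hF] at key
  rw [key]
  congr 1
  have : (fun ω => if C D i ω = c then (1:ℝ) else 0) =
      Set.indicator {ω | C D i ω = c} 1 := by
    ext ω
    simp [Set.indicator_apply]
  rw [this, integral_indicator_one (measurableSet_C D hD i c)]

lemma expect (P : Measure Ω) [IsProbabilityMeasure P] (D : ℕ × Fin d → Ω → ℤ)
    (hD : ∀ q, Measurable (D q)) (hi : iIndepFun D P) (B : Finset (Fin d → ℤ)) (is : List ℕ)
    (hn : is.Nodup) (f : Finset B → ℝ) (O : Finset B) :
    (is.foldr (fun i g => addPt (fun c : B => P.real {ω | C D i ω = c.1}) g) f) O =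
      ∫ ω, f (O ∪ R D B is ω) ∂P := by
  induction is generalizing O with
  | nil => simp [R]
  | cons i is ih =>
    have hi' : i ∉ is := (List.nodup_cons.1 hn).1
    have ih' := ih (List.nodup_cons.1 hn).2
    rw [List.foldr_cons]
    have hpt : ∀ ω, f (O ∪ R D B (i :: is) ω) = f (O ∪ R D B is ω) +
        ∑ c : B, (if C D i ω = c.1 then (1:ℝ) else 0) *
          (f (insert c O ∪ R D B is ω) - f (O ∪ R D B is ω)) := by
      intro ω
      by_cases hB : C D i ω ∈ B
      · rw [Finset.sum_eq_single (⟨C D i ω, hB⟩ : B)]
        · simp only [if_true, one_mul]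
          have : O ∪ R D B (i :: is) ω = insert ⟨C D i ω, hB⟩ O ∪ R D B is ω := by
            ext c
            simp only [Finset.mem_union, mem_R, Finset.mem_insert, List.mem_cons,
              exists_eq_or_imp]
            constructor
            · rintro (h | h | h)
              · exact Or.inl (Or.inr h)
              · exact Or.inl (Or.inl (Subtype.ext h.symm))
              · exact Or.inr h
            · rintro ((h | h) | h)
              · right; left; rw [h]
              · exact Or.inl h
              · exact Or.inr (Or.inr h)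
          rw [this]
          ring
        · intro c _ hc
          rw [if_neg, zero_mul]
          intro h
          exact hc (Subtype.ext h.symm)
        · simp
      · rw [Finset.sum_eq_zero]
        · have : R D B (i :: is) ω = R D B is ω := by
            ext c
            simp only [mem_R, List.mem_cons, exists_eq_or_imp]
            constructor
            · rintro (h | h)
              · exact absurd c.2 (h ▸ hB)
              · exact h
            · exact Or.inr
          rw [this, add_zero]
        · intro c _
          rw [if_neg, zero_mul]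
          intro h
          exact hB (h ▸ c.2)
    simp only [hpt]
    have hint : ∀ c : B, Integrable (fun ω => (if C D i ω = c.1 then (1:ℝ) else 0) *
          (f (insert c O ∪ R D B is ω) - f (O ∪ R D B is ω))) P := by
      intro c
      have h1 := integrable_R P D hD B is (fun S => f (insert c O ∪ S) - f (O ∪ S))
      refine h1.bdd_mul (c := 1) ?_ (Filter.Eventually.of_forall fun ω => ?_)
      · exact (Measurable.ite (measurableSet_C D hD i c) measurable_const
          measurable_const).aestronglyMeasurable
      · split_ifs <;> simp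
    rw [integral_add (integrable_R P D hD B is (fun S => f (O ∪ S)))
      (integrable_finsetSum _ fun c _ => hint c), integral_finsetSum _ fun c _ => hint c]
    change (is.foldr (fun i g => addPt (fun c : B => P.real {ω | C D i ω = c.1}) g) f) O +
      ∑ c : B, P.real {ω | C D i ω = c.1} * _ = _
    congr 1
    · exact ih' O
    · refine Finset.sum_congr rfl fun c _ => ?_
      rw [indep_int P D hD hi B is i hi' c.1 (fun S => f (insert c O ∪ S) - f (O ∪ S)), ih', ih',
        integral_sub]
      · exact integrable_R P D hD B is (fun S => f (insert c O ∪ S))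
      · exact integrable_R P D hD B is (fun S => f (O ∪ S))

end Pool.Agent.Helper114_LP.Dec
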