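import Pool.Agent.Helper712_LP.Stmts

/-!
# MP_f368f5_pr: a one-dimensional Gaussian comparison
-/

set_option autoImplicit false

namespace Pool.Agent.Helper114_LP

open MeasureTheory ProbabilityTheory Set Filter Topology
open scoped ENNReal NNReal Real

lemma pdf_compare {s c6 L : ℝ} {Δ Δ' : ℝ≥0} (hs : 0 < s) (hc : 0 < c6) (hL : 0 < L)
    (hΔ : c6 * L ^ 2 ≤ Δ) (hΔ' : (Δ' : ℝ) = Δ / (1 + s)) {y y' t : ℝ} (hy : |y - y'| ≤ L) :
    (√(1 + s))⁻¹ * Real.exp (-((1 + 1 / s) / (2 * c6))) * gaussianPDFReal y' Δ' t ≤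
      gaussianPDFReal y Δ t := by
  have hΔ0 : (0:ℝ) < Δ := lt_of_lt_of_le (by positivity) hΔ
  rw [gaussianPDFReal, gaussianPDFReal]
  have h1 : √(2 * π * Δ') = √(2 * π * Δ) / √(1 + s) := by
    rw [hΔ', ← Real.sqrt_div (by positivity)]
    congr 1
    ring
  have hs1 : 0 < √(1 + s) := Real.sqrt_pos.2 (by positivity)
  have hp : 0 < √(2 * π * Δ) := Real.sqrt_pos.2 (by positivity)
  have h2 : (√(1 + s))⁻¹ * Real.exp (-((1 + 1 / s) / (2 * c6))) *
      ((√(2 * π * Δ'))⁻¹ * Real.exp (-(t - y') ^ 2 / (2 * Δ'))) =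
      (√(2 * π * Δ))⁻¹ * Real.exp (-((1 + 1 / s) / (2 * c6)) + -(t - y') ^ 2 / (2 * Δ')) := by
    rw [h1, Real.exp_add]
    field_simp
  rw [h2]
  refine mul_le_mul_of_nonneg_left ?_ (by positivity)
  refine Real.exp_le_exp.2 ?_
  have h3 : (t - y) ^ 2 ≤ (1 + s) * (t - y') ^ 2 + (1 + 1 / s) * L ^ 2 := by
    have h4 : (y - y') ^ 2 ≤ L ^ 2 := by
      rw [← sq_abs (y - y')]
      exact pow_le_pow_left₀ (abs_nonneg _) hy 2
    have h5 : (1 + 1 / s) * (y - y') ^ 2 ≤ (1 + 1 / s) * L ^ 2 :=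
      mul_le_mul_of_nonneg_left h4 (by positivity)
    have h6 : (t - y) ^ 2 ≤ (1 + s) * (t - y') ^ 2 + (1 + 1 / s) * (y - y') ^ 2 := by
      have h7 : (1 + s) * (t - y') ^ 2 + (1 + 1 / s) * (y - y') ^ 2 - (t - y) ^ 2 =
          (s * (t - y') + (y - y')) ^ 2 / s := by
        field_simp
        ring
      have h8 : 0 ≤ (s * (t - y') + (y - y')) ^ 2 / s := by positivity
      linarith
    linarith
  have h9 : L ^ 2 / (2 * Δ) ≤ 1 / (2 * c6) := by
    rw [div_le_div_iff₀ (by positivity) (by positivity)]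
    linarith
  have h10 : (t - y) ^ 2 / (2 * Δ) ≤ (1 + s) * (t - y') ^ 2 / (2 * Δ) +
      (1 + 1 / s) * (1 / (2 * c6)) := by
    calc (t - y) ^ 2 / (2 * Δ) ≤ ((1 + s) * (t - y') ^ 2 + (1 + 1 / s) * L ^ 2) / (2 * Δ) :=
          div_le_div_of_nonneg_right h3 (by positivity)
      _ = (1 + s) * (t - y') ^ 2 / (2 * Δ) + (1 + 1 / s) * (L ^ 2 / (2 * Δ)) := by ring
      _ ≤ _ := by
          have := mul_le_mul_of_nonneg_left h9 (by positivity : 0 ≤ 1 + 1 / s)
          linarith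
  have h11 : -(t - y') ^ 2 / (2 * (Δ' : ℝ)) = -((1 + s) * (t - y') ^ 2 / (2 * Δ)) := by
    rw [hΔ']
    field_simp
  have h12 : -(t - y) ^ 2 / (2 * (Δ : ℝ)) = -((t - y) ^ 2 / (2 * Δ)) := by ring
  have h13 : (1 + 1 / s) / (2 * c6) = (1 + 1 / s) * (1 / (2 * c6)) := by ring
  rw [h11, h12, h13]
  linarith

lemma pdf_symm (v : ℝ≥0) (x y : ℝ) : gaussianPDF x v y = gaussianPDF y v x := by
  unfold gaussianPDF gaussianPDFReal
  congr 4
  ring

/-- Chebyshev. -/
lemma gauss_ball (t : ℝ) (v : ℝ≥0) {R : ℝ} (hR : 0 < R) :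
    ENNReal.ofReal (1 - v / R ^ 2) ≤ gaussianReal t v (Ioo (t - R) (t + R)) := by
  have h := meas_ge_le_variance_div_sq (μ := gaussianReal t v) (X := id) (memLp_id_gaussianReal 2) hR
  rw [variance_id_gaussianReal] at h
  have h1 : (gaussianReal t v)[id] = t := integral_id_gaussianReal
  rw [h1] at h
  have h2 : (Ioo (t - R) (t + R))ᶜ = {ω : ℝ | R ≤ |id ω - t|} := by
    ext x
    simp only [mem_compl_iff, mem_Ioo, not_and, not_lt, id, mem_ofPred_eq, le_abs]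
    constructor
    · intro hx
      by_cases h : t - R < x
      · left; have := hx h; linarith
      · right; linarith
    · rintro (h | h) h'
      · linarith
      · linarith
  rw [← h2] at h
  have h3 := prob_compl_eq_one_sub (μ := gaussianReal t v) (measurableSet_Ioo (a := t - R) (b := t + R))
  have h4 : gaussianReal t v (Ioo (t - R) (t + R)) = 1 - gaussianReal t v (Ioo (t - R) (t + R))ᶜ := by
    have := prob_compl_eq_one_sub (μ := gaussianReal t v)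
      (measurableSet_Ioo (a := t - R) (b := t + R)).compl
    rwa [compl_compl] at this
  rw [h4, ENNReal.ofReal_sub _ (by positivity), ENNReal.ofReal_one]
  exact tsub_le_tsub_left h _

/-- The averaged Gaussian mass. -/
noncomputable def avg (Δ' : ℝ≥0) (I J : Set ℝ) : ℝ≥0∞ :=
  ∫⁻ y' in I, gaussianReal y' Δ' J

lemma avg_swap {Δ' : ℝ≥0} (hΔ' : Δ' ≠ 0) {I J : Set ℝ} :
    avg Δ' I J = ∫⁻ t in J, gaussianReal t Δ' I := by
  unfold avg
  simp_rw [gaussianReal_apply _ hΔ']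
  rw [lintegral_lintegral_swap]
  · refine lintegral_congr fun t => lintegral_congr fun y => pdf_symm _ _ _
  · refine Measurable.aemeasurable ?_
    have : Function.uncurry (fun x => gaussianPDF x Δ') = fun p : ℝ × ℝ =>
        (fun (μ, v, x) ↦ gaussianPDF μ v x : ℝ × ℝ≥0 × ℝ → ℝ≥0∞) (p.1, Δ', p.2) := rfl
    rw [this]
    exact measurable_uncurry_gaussianPDF.comp
      (measurable_fst.prodMk (measurable_const.prodMk measurable_snd))

lemma avg_le {s c6 L : ℝ} {Δ Δ' : ℝ≥0} (hs : 0 < s) (hc : 0 < c6) (hL : 0 < L)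
    (hΔ : c6 * L ^ 2 ≤ Δ) (hΔ' : (Δ' : ℝ) = Δ / (1 + s)) {I J : Set ℝ}
    (hI : MeasurableSet I) (hIL : volume I = ENNReal.ofReal L) {y : ℝ}
    (hy : ∀ y' ∈ I, |y - y'| ≤ L) :
    ENNReal.ofReal ((√(1 + s))⁻¹ * Real.exp (-((1 + 1 / s) / (2 * c6)))) * avg Δ' I J ≤
      ENNReal.ofReal L * gaussianReal y Δ J := by
  have hΔ0 : (0:ℝ) < Δ := lt_of_lt_of_le (by positivity) hΔ
  have hΔn : Δ ≠ 0 := by
    intro h; rw [h] at hΔ0; simp at hΔ0
  have hΔ'n : Δ' ≠ 0 := by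
    intro h
    have h0 : (0:ℝ) < Δ / (1 + s) := by positivity
    rw [← hΔ', h] at h0
    simp at h0
  have h1 : ENNReal.ofReal L * gaussianReal y Δ J = ∫⁻ y' in I, gaussianReal y Δ J := by
    rw [lintegral_const, Measure.restrict_apply_univ, hIL, mul_comm]
  rw [h1, avg, ← lintegral_const_mul' _ _ ENNReal.ofReal_ne_top]
  refine setLIntegral_mono' hI fun y' hy' => ?_
  rw [gaussianReal_apply _ hΔn, gaussianReal_apply _ hΔ'n,
    ← lintegral_const_mul' _ _ ENNReal.ofReal_ne_top]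
  refine lintegral_mono fun t => ?_
  rw [gaussianPDF, gaussianPDF, ← ENNReal.ofReal_mul (by positivity)]
  exact ENNReal.ofReal_le_ofReal (pdf_compare hs hc hL hΔ hΔ' (hy y' hy'))

/-- The intervals of length `L`. -/
def Iv (L : ℝ) (v : ℤ) : Set ℝ := Ico (L * v) (L * (v + 1))

lemma volume_Iv (L : ℝ) (v : ℤ) : volume (Iv L v) = ENNReal.ofReal L := by
  rw [Iv, Real.volume_Ico]
  congr 1
  ring

theorem oneD (β : ℝ) (hβ0 : 0 < β) (hβ : β < 1) : ∃ (A : ℕ) (c6 : ℝ), 0 < c6 ∧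
    ∀ (ε : ℝ) (ℓ : ℕ) (Δ : ℝ≥0), 0 < ε → 1 ≤ ℓ → c6 * (ε * ℓ) ^ 2 ≤ Δ →
      (Δ : ℝ) ≤ 2 * c6 * (ε * ℓ) ^ 2 →
      ∃ ν1 : ℤ → ℤ → ℝ, (∀ v b, 0 ≤ ν1 v b) ∧
        (∀ v b, ∀ y ∈ Iv (ε * ℓ) v, ν1 v b ≤ (gaussianReal y Δ).real (Iv ε b)) ∧
        ∀ z0 b : ℤ, |b - z0| ≤ ℓ →
          β * ε ≤ (ε * ℓ) * ∑ v ∈ Finset.Icc (z0 / ℓ - A + 1) (z0 / ℓ + A), ν1 v b := by
  -- the constants
  obtain ⟨x, hx0, hx1, hxβ⟩ : ∃ x : ℝ, 0 < x ∧ x < 1 ∧ β ≤ x ^ 3 := by
    refine ⟨1 - (1 - β) / 3, by linarith, by linarith, ?_⟩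
    nlinarith [sq_nonneg ((1 - β) / 3), mul_nonneg (sq_nonneg ((1 - β) / 3)) (by linarith : (0:ℝ) ≤ 3 - (1 - β) / 3)]
  set s : ℝ := 1 / x ^ 2 - 1 with hs_def
  have hs : 0 < s := by
    have : 1 < 1 / x ^ 2 := by
      rw [lt_div_iff₀ (by positivity)]
      nlinarith
    linarith
  have hsx : (√(1 + s))⁻¹ = x := by
    have : 1 + s = (1 / x) ^ 2 := by rw [hs_def]; ring
    rw [this, Real.sqrt_sq (by positivity)]
    simp
  set c6 : ℝ := (1 + 1 / s) / (2 * (1 - x)) with hc_def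
  have h1x : 0 < 1 - x := by linarith
  have hc : 0 < c6 := by positivity
  have hexp : x ≤ Real.exp (-((1 + 1 / s) / (2 * c6))) := by
    have : (1 + 1 / s) / (2 * c6) = 1 - x := by
      rw [hc_def]
      have : 0 < 1 + 1 / s := by positivity
      field_simp
    rw [this]
    have := Real.add_one_le_exp (-(1 - x))
    linarith
  obtain ⟨n, hn⟩ := exists_nat_gt (2 * c6 / (1 - x))
  set A : ℕ := n + 5 with hA_def
  have hcx : 0 < 2 * c6 / (1 - x) := by positivity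
  have hA : 1 - 2 * c6 / ((A : ℝ) - 4) ^ 2 ≥ x := by
    have h1 : (A : ℝ) - 4 = n + 1 := by rw [hA_def]; push_cast; ring
    rw [h1]
    have h2 : 2 * c6 / (1 - x) ≤ ((n : ℝ) + 1) ^ 2 := by
      have : (n : ℝ) ≤ ((n : ℝ) + 1) ^ 2 := by nlinarith
      linarith
    have h3 : 2 * c6 / ((n : ℝ) + 1) ^ 2 ≤ 1 - x := by
      rw [div_le_iff₀ (by positivity)]
      rw [div_le_iff₀ h1x] at h2
      linarith
    linarith
  refine ⟨A, c6, hc, fun ε ℓ Δ hε hℓ hΔ1 hΔ2 => ?_⟩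
  have hℓ' : (0:ℝ) < ℓ := by exact_mod_cast (lt_of_lt_of_le Nat.zero_lt_one hℓ)
  set L : ℝ := ε * ℓ with hL_def
  have hL : 0 < L := by positivity
  have hΔ0 : (0:ℝ) < Δ := lt_of_lt_of_le (by positivity) hΔ1
  set Δ' : ℝ≥0 := Δ / Real.toNNReal (1 + s) with hΔ'_def
  have hΔ' : (Δ' : ℝ) = Δ / (1 + s) := by
    rw [hΔ'_def, NNReal.coe_div, Real.coe_toNNReal _ (by positivity)]
  have hΔ'0 : (0:ℝ) < Δ' := by rw [hΔ']; positivity
  have hΔ'n : Δ' ≠ 0 := by intro h; rw [h] at hΔ'0; simp at hΔ'0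
  set a : ℝ := (√(1 + s))⁻¹ * Real.exp (-((1 + 1 / s) / (2 * c6))) with ha_def
  have ha0 : 0 ≤ a := by positivity
  have hax : x ^ 2 ≤ a := by
    rw [ha_def, hsx, pow_two]
    exact mul_le_mul_of_nonneg_left hexp hx0.le
  have hfin : ∀ v b, avg Δ' (Iv L v) (Iv ε b) ≠ ∞ := by
    intro v b
    have : avg Δ' (Iv L v) (Iv ε b) ≤ ∫⁻ y' in Iv L v, 1 :=
      lintegral_mono fun y' => prob_le_one
    refine ne_top_of_le_ne_top ?_ this
    rw [lintegral_one, Measure.restrict_apply_univ, volume_Iv]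
    exact ENNReal.ofReal_ne_top
  refine ⟨fun v b => a / L * (avg Δ' (Iv L v) (Iv ε b)).toReal, fun v b => by positivity, ?_, ?_⟩
  · intro v b y hy
    have h1 := avg_le (J := Iv ε b) hs hc hL hΔ1 hΔ' (measurableSet_Ico (a := L * v) (b := L * (v + 1)))
      (volume_Iv L v) (y := y) (by
        intro y' hy'
        simp only [Iv, mem_Ico] at hy hy'
        rw [abs_le]
        constructor
        · nlinarith [hy.1, hy.2, hy'.1, hy'.2]
        · nlinarith [hy.1, hy.2, hy'.1, hy'.2])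
    have h2 := ENNReal.toReal_mono (by finiteness) h1
    rw [ENNReal.toReal_mul, ENNReal.toReal_mul, ENNReal.toReal_ofReal ha0,
      ENNReal.toReal_ofReal hL.le] at h2
    beta_reduce
    rw [div_mul_eq_mul_div, div_le_iff₀ hL, mul_comm _ L]
    exact h2
  · intro z0 b hb
    simp only
    rw [← Finset.mul_sum, ← ENNReal.toReal_sum (fun v _ => hfin v b)]
    have h1 : ENNReal.ofReal ε * ENNReal.ofReal (1 - Δ' / (((A : ℝ) - 4) * L) ^ 2) ≤
        ∑ v ∈ Finset.Icc (z0 / (ℓ : ℤ) - A + 1) (z0 / (ℓ : ℤ) + A), avg Δ' (Iv L v) (Iv ε b) := by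
      have h2 : ∀ t ∈ Iv ε b, ENNReal.ofReal (1 - Δ' / (((A : ℝ) - 4) * L) ^ 2) ≤
          ∑ v ∈ Finset.Icc (z0 / (ℓ : ℤ) - A + 1) (z0 / (ℓ : ℤ) + A), gaussianReal t Δ' (Iv L v) := by
        intro t ht
        have hR : 0 < ((A : ℝ) - 4) * L := by
          have : (0:ℝ) < (A : ℝ) - 4 := by rw [hA_def]; push_cast; linarith [(Nat.cast_nonneg n : (0:ℝ) ≤ n)]
          positivity
        refine (gauss_ball t Δ' hR).trans ((measure_mono ?_).trans
          (measure_biUnion_finset_le _ _))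
        intro u hu
        have hu' : |u / L - t / L| ≤ (A : ℝ) - 4 := by
          rw [← sub_div, abs_div, abs_of_pos hL, div_le_iff₀ hL, abs_le]
          rw [mem_Ioo] at hu
          constructor <;> linarith [hu.1, hu.2]
        have ht' : |t / L - (z0 : ℝ) / ℓ| ≤ 2 := by
          have h3 : t / L - (z0 : ℝ) / ℓ = (t / ε - z0) / ℓ := by
            rw [hL_def]; field_simp
          rw [h3, abs_div, abs_of_pos hℓ', div_le_iff₀ hℓ']
          simp only [Iv, mem_Ico] at ht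
          have h4 : (b : ℝ) ≤ t / ε := by rw [le_div_iff₀ hε]; linarith [ht.1]
          have h5 : t / ε < b + 1 := by rw [div_lt_iff₀ hε]; linarith [ht.2]
          have h6 : |(b : ℝ) - z0| ≤ ℓ := by exact_mod_cast hb
          have h7 : (1:ℝ) ≤ ℓ := by exact_mod_cast hℓ
          rw [abs_le] at h6 ⊢
          constructor <;> linarith [h6.1, h6.2]
        set v : ℤ := ⌊u / L⌋ with hv
        have hv1 : (v : ℝ) ≤ u / L := Int.floor_le _
        have hv2 : u / L < v + 1 := Int.lt_floor_add_one _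
        have hℓz : (0 : ℤ) < (ℓ : ℤ) := by exact_mod_cast (lt_of_lt_of_le Nat.zero_lt_one hℓ)
        have hq1 : ((z0 / (ℓ : ℤ) : ℤ) : ℝ) ≤ (z0 : ℝ) / ℓ := by
          rw [le_div_iff₀ hℓ']
          have := Int.ediv_mul_le z0 hℓz.ne'
          exact_mod_cast this
        have hq2 : (z0 : ℝ) / ℓ < ((z0 / (ℓ : ℤ) : ℤ) : ℝ) + 1 := by
          rw [div_lt_iff₀ hℓ']
          have := Int.lt_ediv_add_one_mul_self z0 hℓz
          exact_mod_cast this
        rw [abs_le] at hu' ht'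
        simp only [mem_iUnion]
        refine ⟨v, Finset.mem_Icc.2 ⟨?_, ?_⟩, ?_⟩
        · have : ((z0 / (ℓ : ℤ) : ℤ) : ℝ) - A < v := by linarith [hu'.1, ht'.1]
          have : (z0 / (ℓ : ℤ) : ℤ) - (A : ℤ) < v := by exact_mod_cast this
          omega
        · have : (v : ℝ) < ((z0 / (ℓ : ℤ) : ℤ) : ℝ) + A := by linarith [hu'.2, ht'.2]
          have : v < (z0 / (ℓ : ℤ) : ℤ) + (A : ℤ) := by exact_mod_cast this
          omega
        · simp only [Iv, mem_Ico]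
          rw [le_div_iff₀ hL] at hv1
          rw [div_lt_iff₀ hL] at hv2
          constructor <;> linarith
      simp_rw [avg_swap hΔ'n]
      rw [← lintegral_finsetSum]
      · have h3 : ENNReal.ofReal ε * ENNReal.ofReal (1 - Δ' / (((A : ℝ) - 4) * L) ^ 2) =
            ∫⁻ t in Iv ε b, ENNReal.ofReal (1 - Δ' / (((A : ℝ) - 4) * L) ^ 2) := by
          rw [lintegral_const, Measure.restrict_apply_univ, volume_Iv, mul_comm]
        rw [h3]
        exact setLIntegral_mono' measurableSet_Ico h2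
      · intro v _
        exact (Measure.measurable_coe (measurableSet_Ico (a := L * v) (b := L * (v + 1)))).comp
          (measurable_gaussianReal.comp (measurable_id.prodMk measurable_const))
    have h2 : ε * x ≤ (∑ v ∈ Finset.Icc (z0 / (ℓ : ℤ) - A + 1) (z0 / (ℓ : ℤ) + A),
        avg Δ' (Iv L v) (Iv ε b)).toReal := by
      have h3 := ENNReal.toReal_mono (ENNReal.sum_ne_top.2 fun v _ => hfin v b) h1
      refine le_trans ?_ h3
      rw [ENNReal.toReal_mul, ENNReal.toReal_ofReal hε.le]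
      refine mul_le_mul_of_nonneg_left ?_ hε.le
      have h4 : (Δ' : ℝ) / (((A : ℝ) - 4) * L) ^ 2 ≤ 2 * c6 / ((A : ℝ) - 4) ^ 2 := by
        have hA4 : (0:ℝ) < (A : ℝ) - 4 := by
          rw [hA_def]; push_cast; linarith [(Nat.cast_nonneg n : (0:ℝ) ≤ n)]
        have h5 : (Δ' : ℝ) ≤ 2 * c6 * L ^ 2 := by
          rw [hΔ']
          refine le_trans ?_ hΔ2
          exact div_le_self hΔ0.le (by linarith)
        rw [mul_pow, div_le_div_iff₀ (by positivity) (by positivity)]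
        have := mul_le_mul_of_nonneg_right h5 (by positivity : (0:ℝ) ≤ ((A : ℝ) - 4) ^ 2)
        nlinarith
      have h5 : x ≤ 1 - (Δ' : ℝ) / (((A : ℝ) - 4) * L) ^ 2 := by linarith
      rw [ENNReal.toReal_ofReal (by linarith)]
      exact h5
    rw [← mul_assoc, mul_div_cancel₀ _ hL.ne']
    calc β * ε ≤ x ^ 3 * ε := mul_le_mul_of_nonneg_right hxβ hε.le
      _ = x ^ 2 * (ε * x) := by ring
      _ ≤ a * _ := mul_le_mul hax h2 (by positivity) ha0

end Pool.Agent.Helper114_LP
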