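import Pool.Agent.Helper712_LP.Stmts
import Pool.Agent.Helper114_LP.MeasLaw

/-!
# MP_f368f5_pr: the finite product formula for `theta`
-/

set_option autoImplicit false

namespace Pool.Agent.Helper114_LP.Dec

open MeasureTheory ProbabilityTheory Set Filter Topology
open scoped ENNReal NNReal
open Pool.Agent.Helper712_LP

variable {d : ℕ}

lemma reach_right {U : Set (Fin d → ℤ)} {z z' : Fin d → ℤ} (h : Reach U z z') : z' ∈ U := by
  obtain ⟨h1, h2⟩ := h
  rcases Relation.ReflTransGen.cases_tail h2 with h | ⟨c, _, h⟩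
  · rw [h]; exact h1
  · exact h.2

/-- The box. -/
def bx (z : Fin d → ℤ) (n : ℤ) : Set (Fin d → ℤ) := {u | ∀ j, |u j - z j| ≤ n}

lemma conn_cut {U : Set (Fin d → ℤ)} {z : Fin d → ℤ} {n : ℕ} (h : Conn U z n) :
    Conn (U ∩ bx z n) z n := by
  obtain ⟨z', hz, hU, hr⟩ := h
  have key : ∀ b, Relation.ReflTransGen (fun a b => adj a b ∧ b ∈ U) z b →
      Conn (U ∩ bx z n) z n ∨ Reach (U ∩ bx z n) z b := by
    intro b hb
    induction hb with
    | refl =>
      right
      refine ⟨⟨hU, fun j => ?_⟩, Relation.ReflTransGen.refl⟩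
      simp
    | @tail b c hab hbc ih =>
      rcases ih with h | h
      · exact Or.inl h
      · by_cases hj : ∃ j, (n : ℤ) ≤ |b j - z j|
        · exact Or.inl ⟨b, hj, h⟩
        · push Not at hj
          right
          refine ⟨h.1, h.2.tail ⟨hbc.1, hbc.2, fun j => ?_⟩⟩
          have h1 := hj j
          have h2 := hbc.1 j
          have h3 : c j - z j = (b j - z j) - (b j - c j) := by ring
          rw [h3]
          have := abs_sub (b j - z j) (b j - c j)
          omega
  rcases key z' hr with h | h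
  · exact h
  · exact ⟨z', hz, h⟩

lemma conn_box {K : Finset (Fin d → ℤ)} {ℓ n : ℕ}
    (hK : ∀ k ∈ K, ∀ j, |k j| + (n : ℤ) ≤ (ℓ : ℤ)) {O : Set (Fin d → ℤ)} {z : Fin d → ℤ} :
    Conn (vac K (O ∩ bx z ℓ)) z n ↔ Conn (vac K O) z n := by
  constructor
  · intro h
    refine conn_mono ?_ (conn_cut h)
    rintro u ⟨hu, hb⟩ v hv hO
    refine hu v hv ⟨hO, fun j => ?_⟩
    have h1 := hb j
    have h2 := hK v hv j
    have h3 : (u + v) j - z j = (u j - z j) + v j := by simp only [Pi.add_apply]; ring
    rw [h3]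
    exact (abs_add_le _ _).trans (by omega)
  · exact conn_mono (vac_anti K Set.inter_subset_left)

/-- The box as a finite set. -/
noncomputable def bxF (z : Fin d → ℤ) (ℓ : ℕ) : Finset (Fin d → ℤ) :=
  Fintype.piFinset (fun j => Finset.Icc (z j - ℓ) (z j + ℓ))

lemma mem_bxF {z : Fin d → ℤ} {ℓ : ℕ} {u : Fin d → ℤ} : u ∈ bxF z ℓ ↔ u ∈ bx z ℓ := by
  simp only [bxF, Fintype.mem_piFinset, Finset.mem_Icc, bx, mem_ofPred_eq, abs_le]
  refine forall_congr' fun j => ?_
  constructor
  · rintro ⟨h1, h2⟩; constructor <;> linarith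
  · rintro ⟨h1, h2⟩; constructor <;> linarith

open Classical in
/-- The indicator of a connection. -/
noncomputable def cf (K : Finset (Fin d → ℤ)) (B : Finset (Fin d → ℤ)) (z : Fin d → ℤ) (n : ℕ) :
    Finset B → ℝ :=
  fun O => if Conn (vac K (Subtype.val '' (O : Set B))) z n then 1 else 0

lemma cf_nonneg (K : Finset (Fin d → ℤ)) (B : Finset (Fin d → ℤ)) (z : Fin d → ℤ) (n : ℕ)
    (O : Finset B) : 0 ≤ cf K B z n O := by
  unfold cf
  split_ifs <;> simp

lemma cf_anti (K : Finset (Fin d → ℤ)) (B : Finset (Fin d → ℤ)) (z : Fin d → ℤ) (n : ℕ)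
    (O O' : Finset B) (h : O ⊆ O') : cf K B z n O' ≤ cf K B z n O := by
  unfold cf
  by_cases h1 : Conn (vac K (Subtype.val '' (O' : Set B))) z n
  · have h2 : Conn (vac K (Subtype.val '' (O : Set B))) z n :=
      conn_mono (vac_anti K (Set.image_mono (by exact_mod_cast h))) h1
    rw [if_pos h1, if_pos h2]
  · rw [if_neg h1]
    split_ifs <;> simp

lemma bern_false {p : ℝ} (h0 : 0 ≤ p) (h1 : p ≤ 1) :
    bern p {false} = ENNReal.ofReal (1 - p) := by
  unfold bern
  rw [bernoulliMeasure_apply_of_notMem_of_mem _ (measurableSet_singleton _) (by simp) (by simp)]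
  rw [Set.projIcc_of_mem zero_le_one (⟨h0, h1⟩ : p ∈ Icc (0:ℝ) 1)]
  rw [ENNReal.ofReal]
  congr 1
  ext
  simp [h1]

lemma poisEx_theta {K : Finset (Fin d → ℤ)} {ℓ n : ℕ}
    (hK : ∀ k ∈ K, ∀ j, |k j| + (n : ℤ) ≤ (ℓ : ℤ)) (z : Fin d → ℤ) {τ : ℝ} (hτ : 0 ≤ τ) :
    poisEx (fun _ : bxF z ℓ => τ) (cf K (bxF z ℓ) z n) = theta d K n (Real.exp (-τ)) := by
  classical
  set p := Real.exp (-τ) with hp
  have hp0 : 0 ≤ p := (Real.exp_pos _).le
  have hp1 : p ≤ 1 := by rw [hp]; exact Real.exp_le_one_iff.2 (by linarith)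
  have hlaw := law d ((Fin d → ℤ) → Bool) (mu d p) occOf p hp0 hp1 measurableSet_occOf
    (fun F => by
      rw [← mu_cyl hp0 hp1 F]
      congr 1
      ext b
      simp [occOf]) K z n
  have hreal : theta d K n p = (mu d p).real {b | Conn (vac K (occOf b)) z n} := by
    rw [measureReal_def, hlaw, ENNReal.toReal_ofReal]
    exact measureReal_nonneg
  rw [hreal]
  -- the occupied cells of the box
  let S : ((Fin d → ℤ) → Bool) → Finset (bxF z ℓ) := fun b =>
    Finset.univ.filter (fun c => b c.1 = false)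
  have hS : ∀ b, (Subtype.val '' (S b : Set (bxF z ℓ))) = occOf b ∩ bx z ℓ := by
    intro b
    ext u
    simp only [S, Set.mem_image, Finset.mem_coe, Finset.mem_filter, Finset.mem_univ, true_and,
      occOf, mem_inter_iff, mem_ofPred_eq]
    constructor
    · rintro ⟨c, hc, rfl⟩
      exact ⟨hc, mem_bxF.1 c.2⟩
    · rintro ⟨h1, h2⟩
      exact ⟨⟨u, mem_bxF.2 h2⟩, h1, rfl⟩
  have hmem : ∀ (O : Finset (bxF z ℓ)) (c : bxF z ℓ),
      c.1 ∈ O.map (Function.Embedding.subtype _) ↔ c ∈ O := by
    intro O c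
    simp
  have hcyl : ∀ O : Finset (bxF z ℓ), {b | S b = O} =
      Set.pi (bxF z ℓ : Set (Fin d → ℤ))
        (fun c => if c ∈ O.map (Function.Embedding.subtype _) then {false} else {true}) := by
    intro O
    ext b
    simp only [mem_ofPred_eq, Set.mem_pi, Finset.mem_coe]
    constructor
    · rintro rfl c hc
      by_cases h : b c = false
      · rw [if_pos]
        · exact h
        · simp only [S, Finset.mem_map, Finset.mem_filter, Finset.mem_univ, true_and]
          exact ⟨⟨c, hc⟩, h, rfl⟩
      · rw [if_neg]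
        · simpa using h
        · simp only [S, Finset.mem_map, Finset.mem_filter, Finset.mem_univ, true_and, not_exists,
            not_and]
          rintro ⟨c', hc'⟩ h1 rfl
          exact h h1
    · intro h
      ext c
      simp only [S, Finset.mem_filter, Finset.mem_univ, true_and]
      have h1 := h c.1 c.2
      simp only [hmem] at h1
      by_cases hc : c ∈ O
      · rw [if_pos hc] at h1
        exact ⟨fun _ => hc, fun _ => h1⟩
      · rw [if_neg hc] at h1
        constructor
        · intro h2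
          rw [h2] at h1
          simp at h1
        · intro h2
          exact absurd h2 hc
  have hmeas : ∀ O : Finset (bxF z ℓ), MeasurableSet {b | S b = O} := by
    intro O
    rw [hcyl]
    refine MeasurableSet.pi (Finset.countable_toSet _) fun c _ => ?_
    split_ifs <;> exact measurableSet_singleton _
  have hmu : ∀ O : Finset (bxF z ℓ), (mu d p).real {b | S b = O} =
      (∏ c ∈ O, (1 - p)) * (∏ c ∈ Oᶜ, p) := by
    intro O
    rw [measureReal_def, hcyl, mu, Measure.infinitePi_pi _ (fun c _ => by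
      split_ifs <;> exact measurableSet_singleton _)]
    rw [← Finset.prod_coe_sort, ENNReal.toReal_prod]
    have : ∀ c : bxF z ℓ, (bern p (if c.1 ∈ O.map (Function.Embedding.subtype _) then {false}
        else {true})).toReal = if c ∈ O then 1 - p else p := by
      intro c
      simp only [hmem]
      by_cases hc : c ∈ O
      · rw [if_pos hc, if_pos hc, bern_false hp0 hp1, ENNReal.toReal_ofReal (by linarith)]
      · rw [if_neg hc, if_neg hc, bern_true hp0 hp1, ENNReal.toReal_ofReal hp0]
    simp only [this]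
    rw [Finset.prod_ite]
    congr 1
    · congr 1
      ext c; simp
    · congr 1
      ext c; simp
  -- split the event
  have hsplit : {b | Conn (vac K (occOf b)) z n} =
      ⋃ O ∈ Finset.univ.filter (fun O : Finset (bxF z ℓ) =>
        Conn (vac K (Subtype.val '' (O : Set (bxF z ℓ)))) z n), {b | S b = O} := by
    ext b
    simp only [mem_ofPred_eq, Set.mem_iUnion, Finset.mem_filter, Finset.mem_univ, true_and,
      exists_prop]
    rw [← conn_box hK, ← hS]
    constructor
    · intro h
      exact ⟨S b, h, rfl⟩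
    · rintro ⟨O, h, rfl⟩
      exact h
  rw [hsplit, measureReal_biUnion_finset]
  · rw [Finset.sum_filter]
    unfold poisEx cf
    refine Finset.sum_congr rfl fun O _ => ?_
    rw [hmu]
    split_ifs <;> simp [hp]
  · intro O _ O' _ hne
    change Disjoint _ _
    rw [Set.disjoint_left]
    intro b hb hb'
    exact hne (hb.symm.trans hb')
  · intro O _
    exact hmeas O

end Pool.Agent.Helper114_LP.Dec
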