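import Pool.Agent.Helper114_LP.MeasLaw
import Pool.Agent.Helper114_LP.Compare
import Pool.Agent.Helper114_LP.OneD
import Pool.Agent.Helper114_LP.Expect
import Pool.Agent.Helper114_LP.PoisTheta

/-!
# MP_f368f5_pr: decoupling

`decouple : S_decouple`.
-/

set_option autoImplicit false

namespace Pool.Agent.Helper114_LP.Dec

open MeasureTheory ProbabilityTheory Set Filter Topology
open scoped ENNReal NNReal
open Pool.Agent.Helper712_LP

lemma floor_mem_Iv {ε x : ℝ} (hε : 0 < ε) (b : ℤ) : ⌊x / ε⌋ = b ↔ x ∈ Iv ε b := by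
  rw [Int.floor_eq_iff, Iv, mem_Ico, le_div_iff₀ hε, div_lt_iff₀ hε, mul_comm ε, mul_comm ε]

theorem decouple : S_decouple := by
  classical
  intro d hd K ε l2 l3 hε hl2 hl23
  -- constants
  set l3' : ℝ := (l2 + l3) / 2 with hl3'
  have h1 : l2 < l3' := by rw [hl3']; linarith
  have h2 : l3' < l3 := by rw [hl3']; linarith
  have hl3'0 : 0 < l3' := hl2.trans h1
  have hl30 : 0 < l3 := hl3'0.trans h2
  have hd' : (0:ℝ) < d := by exact_mod_cast (lt_of_lt_of_le Nat.zero_lt_one hd)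
  have hd1 : (1:ℝ) ≤ d := by exact_mod_cast hd
  have hratio : l2 / l3' < 1 := (div_lt_one hl3'0).2 h1
  have hratio0 : 0 < l2 / l3' := div_pos hl2 hl3'0
  set β : ℝ := 1 - (1 - l2 / l3') / d with hβ
  have hx : 0 < (1 - l2 / l3') / d := div_pos (by linarith) hd'
  have hx1 : (1 - l2 / l3') / d < 1 := by
    rw [div_lt_one hd']
    linarith
  have hβ0 : 0 < β := by linarith
  have hβ1 : β < 1 := by linarith
  have hβd : l2 / l3' ≤ β ^ d := by
    have := one_add_mul_le_pow (a := -((1 - l2 / l3') / d)) (by linarith) d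
    have e1 : 1 + (d : ℝ) * (-((1 - l2 / l3') / d)) = l2 / l3' := by
      field_simp
      ring
    have e2 : 1 + -((1 - l2 / l3') / d) = β := by rw [hβ]; ring
    rw [e1, e2] at this
    exact this
  obtain ⟨A, c6, hc6, hone⟩ := oneD β hβ0 hβ1
  set ρ : ℝ := l3' / l3 with hρ
  have hρ0 : 0 < ρ := div_pos hl3'0 hl30
  have hρ1 : ρ < 1 := (div_lt_one hl30).2 h2
  refine ⟨A, c6, ((1 - ρ)⁻¹) ^ ((2 * A) ^ d), hc6, by
    have : 0 < 1 - ρ := by linarith
    positivity, ?_⟩
  intro Ω _ P _ ξ Δ ℓ n hξm hξ hind hℓ hΔ1 hΔ2 hK y z hmany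
  obtain ⟨ν1, hν1_nonneg, hν1_le, hν1_sum⟩ := hone ε ℓ Δ hε hℓ hΔ1 hΔ2
  have hℓ' : (0:ℝ) < ℓ := by exact_mod_cast (lt_of_lt_of_le Nat.zero_lt_one hℓ)
  have hℓz : (0 : ℤ) < (ℓ : ℤ) := by exact_mod_cast (lt_of_lt_of_le Nat.zero_lt_one hℓ)
  set L : ℝ := ε * ℓ with hL_def
  have hL : 0 < L := by positivity
  -- coordinates
  set D : ℕ × Fin d → Ω → ℤ := fun q ω => ⌊(y q.1 q.2 + ξ q.1 ω q.2) / ε⌋ with hD_def
  have hξq : ∀ q : ℕ × Fin d, Measurable (fun ω => ξ q.1 ω q.2) := fun q =>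
    (by fun_prop : Measurable (fun v : E d => v q.2)).comp (hξm q.1)
  have hfl : ∀ q : ℕ × Fin d, Measurable (fun t : ℝ => ⌊(y q.1 q.2 + t) / ε⌋) := fun q =>
    Int.measurable_floor.comp (by fun_prop)
  have hD : ∀ q, Measurable (D q) := fun q => (hfl q).comp (hξq q)
  have hDi : iIndepFun D P := hind.comp (fun q t => ⌊(y q.1 q.2 + t) / ε⌋) hfl
  have hC : ∀ i ω, C D i ω = cell ε (y i + ξ i ω) := by
    intro i ω
    funext j
    simp [C, D, cell]
  have hlaw1 : ∀ (q : ℕ × Fin d) (b : ℤ), P.real {ω | D q ω = b} =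
      (gaussianReal (y q.1 q.2) Δ).real (Iv ε b) := by
    intro q b
    have e1 : {ω | D q ω = b} = (fun ω => ξ q.1 ω q.2) ⁻¹'
        ((fun t => y q.1 q.2 + t) ⁻¹' (Iv ε b)) := by
      ext ω
      simp only [D, mem_ofPred_eq, mem_preimage]
      exact floor_mem_Iv hε b
    have hm : MeasurableSet (Iv ε b) := measurableSet_Ico
    have hm' : MeasurableSet ((fun t => y q.1 q.2 + t) ⁻¹' (Iv ε b)) :=
      (measurable_const_add _) hm
    rw [measureReal_def, e1, ← Measure.map_apply (hξq q) hm', hξ,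
      ← Measure.map_apply (measurable_const_add _) hm, gaussianReal_map_const_add, zero_add]
    rfl
  -- the law of the cell of a point
  set μ : ℕ → bxF z ℓ → ℝ := fun i c => P.real {ω | C D i ω = c.1} with hμ
  have hμ_prod : ∀ i c, μ i c = ∏ j, (gaussianReal (y i j) Δ).real (Iv ε (c.1 j)) := by
    intro i c
    have hinj : Function.Injective (fun j : Fin d => (i, j)) := fun a b h => by
      simpa using h
    have h3 := (hDi.precomp hinj).measure_inter_preimage_eq_mul Finset.univ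
      (sets := fun j => {c.1 j}) (fun _ _ => measurableSet_singleton _)
    have e1 : {ω | C D i ω = c.1} = ⋂ j ∈ (Finset.univ : Finset (Fin d)),
        (fun j => D (i, j)) j ⁻¹' {c.1 j} := by
      ext ω
      simp [C, funext_iff]
    rw [hμ]
    simp only
    rw [measureReal_def, e1, h3, ENNReal.toReal_prod]
    refine Finset.prod_congr rfl fun j _ => ?_
    exact hlaw1 (i, j) (c.1 j)
  have hμ_sum : ∀ i, ∑ c, μ i c ≤ 1 := by
    intro i
    have h3 := sum_measureReal_preimage_singleton (μ := P) (bxF z ℓ) (f := C D i)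
      (fun c _ => measurableSet_C D hD i c)
    have h4 : ∑ c : bxF z ℓ, μ i c = ∑ c ∈ bxF z ℓ, P.real (C D i ⁻¹' {c}) :=
      Finset.sum_coe_sort (bxF z ℓ) (fun c => P.real (C D i ⁻¹' {c}))
    rw [h4, h3]
    exact measureReal_le_one
  -- the big cells
  set Wf : Finset (Fin d → ℤ) := Fintype.piFinset
    (fun j => Finset.Icc (z j / (ℓ : ℤ) - A + 1) (z j / (ℓ : ℤ) + A)) with hWf
  have hWcard : Fintype.card Wf = (2 * A) ^ d := by
    rw [Fintype.card_coe, hWf, Fintype.card_piFinset]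
    have : ∀ j : Fin d, (Finset.Icc (z j / (ℓ : ℤ) - A + 1) (z j / (ℓ : ℤ) + A)).card = 2 * A := by
      intro j
      rw [Int.card_Icc]
      omega
    simp [this]
  have hWmem : ∀ w ∈ Wf, ∀ j, |(ℓ : ℤ) * w j - z j| ≤ A * ℓ := by
    intro w hw j
    rw [hWf, Fintype.mem_piFinset] at hw
    obtain ⟨ha, hb⟩ := Finset.mem_Icc.1 (hw j)
    have h3 := Int.mul_ediv_add_emod (z j) ℓ
    have h4 := Int.emod_nonneg (z j) hℓz.ne'
    have h5 := Int.emod_lt_of_pos (z j) hℓz
    rw [abs_le]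
    constructor
    · nlinarith
    · nlinarith
  -- the number of points
  set N : ℕ := ⌈l3 * L ^ d⌉₊ with hN
  have hLd : 0 < l3 * L ^ d := by positivity
  have hN0 : 0 < N := Nat.ceil_pos.2 hLd
  have hNle : l3 * L ^ d ≤ N := Nat.le_ceil _
  have hI : ∀ w : Wf, ∃ I : Finset ℕ, (∀ i ∈ I, cell L (y i) = w.1) ∧ N ≤ I.card := by
    intro w
    obtain ⟨I, hI1, hI2⟩ := hmany w.1 (hWmem w.1 w.2)
    exact ⟨I, hI1, Nat.ceil_le.2 hI2⟩
  choose I hI1 hI2 using hI
  -- lower bounds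
  set ν0 : Wf → bxF z ℓ → ℝ := fun w c => ∏ j, ν1 (w.1 j) (c.1 j) with hν0
  have hν0_nonneg : ∀ w c, 0 ≤ ν0 w c := fun w c => Finset.prod_nonneg fun j _ => hν1_nonneg _ _
  have hν0_le : ∀ w, ∀ i ∈ I w, ∀ c, ν0 w c ≤ μ i c := by
    intro w i hi c
    rw [hμ_prod, hν0]
    simp only
    refine Finset.prod_le_prod (fun j _ => hν1_nonneg _ _) fun j _ => ?_
    refine hν1_le _ _ _ ?_
    rw [← floor_mem_Iv hL]
    have := congrFun (hI1 w i hi) j
    exact this
  set κ : ℝ := l3' * L ^ d with hκ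
  have hκ0 : 0 ≤ κ := by positivity
  have hκN : κ ≤ ρ * N := by
    have : κ = ρ * (l3 * L ^ d) := by
      rw [hκ, hρ]
      field_simp
    rw [this]
    exact mul_le_mul_of_nonneg_left hNle hρ0.le
  set τ : ℝ := l2 * ε ^ d with hτ
  have hτ0 : 0 < τ := by positivity
  set S0 : bxF z ℓ → ℝ := fun c => κ * ∑ w, ν0 w c with hS0
  have hS0_ge : ∀ c, τ ≤ S0 c := by
    intro c
    have h3 : ∑ w : Wf, ν0 w c = ∏ j, ∑ v ∈ Finset.Icc (z j / (ℓ : ℤ) - A + 1) (z j / (ℓ : ℤ) + A),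
        ν1 v (c.1 j) := by
      rw [Finset.prod_univ_sum, ← hWf]
      exact Finset.sum_coe_sort Wf (fun w => ∏ j, ν1 (w j) (c.1 j))
    have h4 : S0 c = l3' * ∏ j, (L * ∑ v ∈ Finset.Icc (z j / (ℓ : ℤ) - A + 1)
        (z j / (ℓ : ℤ) + A), ν1 v (c.1 j)) := by
      rw [hS0]
      simp only
      rw [h3, hκ, Finset.prod_mul_distrib]
      simp only [Finset.prod_const, Finset.card_univ, Fintype.card_fin]
      ring
    rw [h4]
    have h5 : (β * ε) ^ d ≤ ∏ j : Fin d, (L * ∑ v ∈ Finset.Icc (z j / (ℓ : ℤ) - A + 1)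
        (z j / (ℓ : ℤ) + A), ν1 v (c.1 j)) := by
      have h6 : (β * ε) ^ d = ∏ _j : Fin d, (β * ε) := by simp
      rw [h6]
      refine Finset.prod_le_prod (fun j _ => by positivity) fun j _ => ?_
      exact hν1_sum (z j) (c.1 j) (mem_bxF.1 c.2 j)
    have h7 : τ ≤ l3' * (β * ε) ^ d := by
      rw [mul_pow, ← mul_assoc, hτ]
      refine mul_le_mul_of_nonneg_right ?_ (by positivity)
      rw [div_le_iff₀ hl3'0] at hβd
      linarith
    exact h7.trans (mul_le_mul_of_nonneg_left h5 hl3'0.le)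
  have hS0_pos : ∀ c, 0 < S0 c := fun c => hτ0.trans_le (hS0_ge c)
  set ν : Wf → bxF z ℓ → ℝ := fun w c => τ / S0 c * ν0 w c with hν
  have hr0 : ∀ c, 0 ≤ τ / S0 c := fun c => div_nonneg hτ0.le (hS0_pos c).le
  have hr1 : ∀ c, τ / S0 c ≤ 1 := fun c => (div_le_one (hS0_pos c)).2 (hS0_ge c)
  have hν_nonneg : ∀ w c, 0 ≤ ν w c := fun w c => mul_nonneg (hr0 c) (hν0_nonneg w c)
  have hν_le : ∀ w, ∀ i ∈ I w, ∀ c, ν w c ≤ μ i c := by
    intro w i hi c
    calc ν w c ≤ 1 * ν0 w c := mul_le_mul_of_nonneg_right (hr1 c) (hν0_nonneg w c)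
      _ = ν0 w c := one_mul _
      _ ≤ μ i c := hν0_le w i hi c
  have hν_sum : ∀ w, ∑ c, ν w c ≤ 1 := by
    intro w
    have : 0 < (I w).card := lt_of_lt_of_le hN0 (hI2 w)
    obtain ⟨i, hi⟩ := Finset.card_pos.1 this
    exact (Finset.sum_le_sum fun c _ => hν_le w i hi c).trans (hμ_sum i)
  have hτ_eq : (fun c => κ * ∑ w, ν w c) = fun _ : bxF z ℓ => τ := by
    funext c
    have : ∑ w, ν w c = τ / S0 c * ∑ w, ν0 w c := by
      rw [Finset.mul_sum]
    rw [this]
    have h3 : κ * (τ / S0 c * ∑ w, ν0 w c) = τ / S0 c * S0 c := by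
      rw [hS0]; ring
    rw [h3, div_mul_cancel₀ _ (hS0_pos c).ne']
  -- the list of points
  set S : Finset (Wf × ℕ) := (Finset.univ ×ˢ (Finset.univ.biUnion I)).filter
    (fun q => q.2 ∈ I q.1) with hS
  have hSmem : ∀ q, q ∈ S ↔ q.2 ∈ I q.1 := by
    intro q
    rw [hS, Finset.mem_filter]
    constructor
    · exact fun h => h.2
    · intro h
      refine ⟨?_, h⟩
      simp only [Finset.mem_product, Finset.mem_univ, true_and, Finset.mem_biUnion]
      exact ⟨q.1, h⟩
  set is : List ℕ := S.toList.map Prod.snd with his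
  have hnodup : is.Nodup := by
    refine (List.nodup_map_iff_inj_on (Finset.nodup_toList S)).2 ?_
    rintro ⟨w, i⟩ hq ⟨w', i'⟩ hq' h
    simp only at h
    subst h
    rw [Finset.mem_toList, hSmem] at hq hq'
    have := (hI1 w i hq).symm.trans (hI1 w' i hq')
    rw [Subtype.ext this]
  set l : List (Wf × (bxF z ℓ → ℝ)) := S.toList.map (fun q => (q.1, μ q.2)) with hl
  have hcmp := Cmp.compare (bxF z ℓ) Wf l ν κ N ρ hκ0 hρ1 hκN hN0 (by
      intro q hq
      rw [hl, List.mem_map] at hq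
      obtain ⟨⟨w, i⟩, hq1, rfl⟩ := hq
      rw [Finset.mem_toList, hSmem] at hq1
      refine ⟨fun c => measureReal_nonneg, hμ_sum i, fun c => hν_le w i hq1 c⟩)
    hν_nonneg hν_sum (by
      intro w
      rw [hl, List.filter_map, List.length_map]
      have h3 : (S.toList.filter ((fun q : Wf × (bxF z ℓ → ℝ) => decide (q.1 = w)) ∘
          fun q : Wf × ℕ => (q.1, μ q.2))).length = (S.filter (fun q => q.1 = w)).card := by
        rw [← Finset.length_toList]
        refine List.Perm.length_eq ?_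
        refine (List.perm_ext_iff_of_nodup ((Finset.nodup_toList S).filter _)
          (Finset.nodup_toList _)).2 fun q => ?_
        simp
      refine le_trans ?_ (le_of_eq (h3.symm.trans ?_))
      · refine (hI2 w).trans ?_
        refine Finset.card_le_card_of_injOn (fun i => (w, i)) ?_ ?_
        · intro i hi
          simp only [Finset.coe_filter, mem_ofPred_eq, and_true]
          exact (hSmem _).2 hi
        · intro a _ b _ h
          simpa using h
      · congr
        funext q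
        by_cases h : q.1 = w <;> simp [h])
    (cf K (bxF z ℓ) z n) (cf_nonneg K _ z n) (cf_anti K _ z n)
  rw [hτ_eq, poisEx_theta hK z hτ0.le, hWcard] at hcmp
  -- the fold is an expectation
  have hfold : (l.foldr (fun q g => addPt q.2 g) (cf K (bxF z ℓ) z n)) =
      is.foldr (fun i g => addPt (fun c : bxF z ℓ => P.real {ω | C D i ω = c.1}) g)
        (cf K (bxF z ℓ) z n) := by
    rw [hl, his, List.foldr_map, List.foldr_map]
  rw [hfold, expect P D hD hDi (bxF z ℓ) is hnodup] at hcmp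
  -- comparison of the events
  have hsub : {ω | Conn (vac K (occ ε (fun i => y i + ξ i ω))) z n} ⊆
      {ω | Conn (vac K (Subtype.val '' (R D (bxF z ℓ) is ω : Set (bxF z ℓ)))) z n} := by
    intro ω hω
    refine conn_mono (vac_anti K ?_) hω
    rintro _ ⟨c, hc, rfl⟩
    rw [Finset.mem_coe, mem_R] at hc
    obtain ⟨i, _, hi⟩ := hc
    exact ⟨i, by rw [← hC, hi]⟩
  have hmeas : MeasurableSet
      {ω | Conn (vac K (Subtype.val '' (R D (bxF z ℓ) is ω : Set (bxF z ℓ)))) z n} := by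
    have h3 := measurable_R D hD (bxF z ℓ) is (cf K (bxF z ℓ) z n)
    have h4 : {ω | Conn (vac K (Subtype.val '' (R D (bxF z ℓ) is ω : Set (bxF z ℓ)))) z n} =
        (fun ω => cf K (bxF z ℓ) z n (R D (bxF z ℓ) is ω)) ⁻¹' {1} := by
      ext ω
      simp only [mem_ofPred_eq, mem_preimage, mem_singleton_iff, cf]
      split_ifs with h
      · simp [h]
      · simp [h]
    rw [h4]
    exact h3 (measurableSet_singleton _)
  have hint : ∫ ω, cf K (bxF z ℓ) z n (∅ ∪ R D (bxF z ℓ) is ω) ∂P =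
      P.real {ω | Conn (vac K (Subtype.val '' (R D (bxF z ℓ) is ω : Set (bxF z ℓ)))) z n} := by
    rw [← integral_indicator_one hmeas]
    refine integral_congr_ae (Filter.Eventually.of_forall fun ω => ?_)
    simp only [Finset.empty_union, cf, Set.indicator_apply, mem_ofPred_eq, Pi.one_apply]
  rw [hint] at hcmp
  calc P {ω | Conn (vac K (occ ε (fun i => y i + ξ i ω))) z n} ≤ _ := measure_mono hsub
    _ = ENNReal.ofReal (P.real {ω | Conn (vac K (Subtype.val ''
        (R D (bxF z ℓ) is ω : Set (bxF z ℓ)))) z n}) := (ofReal_measureReal).symm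
    _ ≤ _ := ENNReal.ofReal_le_ofReal hcmp

end Pool.Agent.Helper114_LP.Dec
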